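import Mathlib
import Pool.Agent.H395.Exo.PosDefs

/-!
# Abelian varieties with Weil numbers of quadratic types and odd indices: definitions
-/

set_option autoImplicit false

namespace Pool.Agent.H395.Odd

open NumberField Pool.Agent.TH170 Pool.Agent.H204R3.CM Pool.Agent.W495.TA Module

/-- Each simple factor of the abelian variety `Y` over a finite field is supersingular, or some
positive power of its Frobenius endomorphism is the image of a positive power of one of the numbers
`π i` under an embedding of the field `K i` in the CM field of the factor, the degree of which over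
`K i` is odd if `i` is in `J`. -/
def OfNumbersOdd {p : ℕ} [Fact p.Prime] {ν : PadicAlgCl p ≃+* ℂ} {I : Type} {K : I → Type}
    [∀ i, Field (K i)] [∀ i, NumberField (K i)] (J : Set I) (π : ∀ i, K i) (Y : RedAV p ν) :
    Prop :=
  ∀ k : Y.X.I, GS.IsSupersingular p Y.a (Y.π k) ∨
    ∃ (i : I) (θ : K i →+* (Y.X.factor k).E) (m s : ℕ),
      (i ∈ J → ∃ d : ℕ, Odd d ∧ finrank ℚ (Y.X.factor k).E = d * finrank ℚ (K i)) ∧
      0 < m ∧ 0 < s ∧ θ (π i ^ m) = Y.π k ^ s

end Pool.Agent.H395.Odd
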