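import Mathlib
import Pool.Agent.H395.Exo.Nonsplit2

/-!
# The signs of the words some odd multiple of which is decomposable

If an odd multiple of a relation between the Frobenius eigenvalues is a combination of elementary
relations and of relations which are invariant over the imaginary quadratic field, the sign of the
corresponding word is determined by the sign of its odd power, a word on a power of the abelian
variety. The frames of the proofs of `word_sign_odd` and `word_both_odd` are those of `word_sign` in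
`Pool/Graph/R_pool_sql_team_seeded_63374d34/N202/QR/Main.lean` and `word_both` in
`Pool/Agent/H395/Exo/Nonsplit2.lean`.
-/

set_option autoImplicit false
set_option linter.unusedSectionVars false
set_option linter.unusedVariables false

namespace Pool.Agent.H395.Odd

open NumberField Pool.Agent.H204R3.CM Pool.Agent.W547.KB Pool.Agent.W547.LD Pool.Agent.W547.HR
  Pool.Agent.W495.TA Module Pool.Agent.TH117.PO Pool.Agent.W976.TA Pool.Agent.W417.TA
  Pool.Agent.TH117.BL Pool.Agent.W495.TC Pool.Agent.W495.TB Pool.Agent.TH117.F5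
  Pool.Agent.N202.QR Pool.Agent.H395.Exo
open scoped TensorProduct

noncomputable section

variable {p : ℕ} [Fact p.Prime] {ν : PadicAlgCl p ≃+* ℂ}

/-- Some odd multiple of each multiplicative relation between the Frobenius eigenvalues is a
combination of elementary relations and of relations which are invariant under the automorphisms
over `K`. -/
def HasOddQuadRel {K : Type} [Field K] (κ : K →+* ℂ) (Z : RedAV p ν) : Prop :=
  ∀ e : Emb Z → ℕ, IsRel Z e → ∃ N : ℕ, _root_.Odd N ∧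
    (fun w => ((N * e w : ℕ) : ℤ)) ∈ AddSubgroup.closure
      {d : Emb Z → ℤ | ∃ n : Emb Z → ℕ, IsRel Z n ∧ (IsElementary Z n ∨ IsInvariant κ Z n) ∧
        ∀ w, d w = n w}

section Line

variable {Ω : Type} [Field Ω] [CharZero Ω]
  {L : Type} [Field L] [NumberField L] [IsCMField L] [IsGalois ℚ L] {j : L →+* ℂ} {jO : L →+* Ω}
  {C : (Y : RedAV p ν) → (κ : Type) → ((TM Ω Y) [⋀^κ]→ₗ[Ω] Ω) → Prop}

/-- The indices of the powers. -/
def eS (N : ℕ) (κ : Type) : κ ⊕ (Fin N × κ) ≃ Fin (N + 1) × κ where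
  toFun := Sum.elim (fun k => (0, k)) fun y => (y.1.succ, y.2)
  invFun := fun x => Fin.cases (Sum.inl x.2) (fun i => Sum.inr (i, x.2)) x.1
  left_inv := by
    rintro (k | ⟨i, k⟩)
    · rfl
    · rfl
  right_inv := by
    rintro ⟨i, k⟩
    induction i using Fin.cases with
    | zero => rfl
    | succ i => rfl

/-- The powers of a line, on the powers of the abelian variety. -/
theorem pow_line (hC : IsCycleSystem Ω C) {Y : RedAV p ν} (hY : Big Y.X j) {κ : Type}
    [Fintype κ] [DecidableEq κ] {s : κ → Wt Y.X L} (hs : Function.Injective s) (N : ℕ) :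
    ∃ (Y' : RedAV p ν) (S : Fin N × κ → Wt Y'.X L), Big Y'.X j ∧ Function.Injective S ∧
      (∀ x, St j (S x) = St j (s x.2)) ∧
      ∀ c c' : Ω, Ln jO C Y s c c' → Ln jO C Y' S (c ^ N) (c' ^ N) := by
  induction N with
  | zero =>
    refine ⟨Y, fun x => x.1.elim0, hY, fun x => x.1.elim0, fun x => x.1.elim0, fun c c' h => ?_⟩
    rw [pow_zero, pow_zero]
    exact Ln_empty hC _
  | succ N ih =>
    obtain ⟨Y', S, hY', hS, hSt, hL⟩ := ih
    have hinj : Function.Injective (Sum.elim (fun k => inlW (s k)) (fun y => inrW (S y)) :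
        κ ⊕ (Fin N × κ) → Wt (prodR Y Y').X L) := by
      refine Function.Injective.sumElim ?_ ?_ ?_
      · intro k k' hk
        refine hs ?_
        have h5 := Sigma.mk.inj_iff.1 hk
        exact Sigma.ext (Sum.inl.inj h5.1) h5.2
      · intro k k' hk
        refine hS ?_
        have h5 := Sigma.mk.inj_iff.1 hk
        exact Sigma.ext (Sum.inr.inj h5.1) h5.2
      · intro k k' hk
        exact Sum.inl_ne_inr (Sigma.mk.inj_iff.1 hk).1
    refine ⟨prodR Y Y', fun x => (Sum.elim (fun k => inlW (s k)) (fun y => inrW (S y)) :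
        κ ⊕ (Fin N × κ) → Wt (prodR Y Y').X L) ((eS N κ).symm x), big_prodR hY hY',
      hinj.comp (eS N κ).symm.injective, ?_, fun c c' h => ?_⟩
    · rintro ⟨i, k⟩
      induction i using Fin.cases with
      | zero => rfl
      | succ i => exact hSt (i, k)
    · have h1 : Ln jO C (prodR Y Y') (fun k => inlW (s k)) c c' :=
        Ln.types hC j (Y := prodR Y Y') (I := fun k => inlW (s k)) hs (fun k => rfl) h
      have h2 : Ln jO C (prodR Y Y') (fun y => inrW (S y)) (c ^ N) (c' ^ N) :=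
        Ln.types hC j (Y := prodR Y Y') (I := fun y => inrW (S y)) hS (fun k => rfl) (hL c c' h)
      have h3 := Ln.cup hC h1 h2
      rw [← pow_succ', ← pow_succ'] at h3
      exact Ln.reindex hC (eS N κ) (fun k => by
        rw [(eS N κ).symm_apply_apply]) h3

/-- The sign of a word is determined by the sign of an odd power. -/
theorem sign_of_pow (hC : IsCycleSystem Ω C) {Y : RedAV p ν} (hY : Big Y.X j) {κ : Type}
    [Fintype κ] [DecidableEq κ] {s : κ → Wt Y.X L} (hs : Function.Injective s)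
    (heven : Even (Fintype.card κ)) {c c' : Ω} (h : Ln jO C Y s c c') {N : ℕ} (hN : _root_.Odd N)
    (hpow : ∃ μ : L, c ^ N * c' ^ N = jO μ ∧
      PosC (j μ * (∏ k, Pool.Agent.TH117.PO.sgn j (s k)) ^ N)) :
    ∃ μ : L, c * c' = jO μ ∧ PosC (j μ * ∏ k, Pool.Agent.TH117.PO.sgn j (s k)) := by
  obtain ⟨μ, h1, t, ht, h2⟩ := hpow
  obtain ⟨l, h3, h4⟩ := two_lines hC j hY hs h h
  refine ⟨l, h3, ?_⟩
  have hl : cc L l = l := jO.injective (by rw [← h4, ← h3, mul_comm])
  have hμ : μ = l ^ N := jO.injective (by rw [← h1, ← mul_pow, h3, map_pow])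
  set S : ℂ := ∏ k, Pool.Agent.TH117.PO.sgn j (s k) with hS
  have hS2 : S * S = 1 := by
    rw [hS, ← Finset.prod_mul_distrib]
    simp only [sgn_sq]
    rw [Finset.prod_const, Finset.card_univ, heven.neg_one_pow]
  have hSc : starRingEnd ℂ S = S := by
    rcases mul_self_eq_one_iff.1 hS2 with h5 | h5
    · rw [h5, map_one]
    · rw [h5, map_neg, map_one]
  have hx : starRingEnd ℂ (j l * S) = j l * S := by
    rw [map_mul, hSc, ← emb_cc, hl]
  obtain ⟨x, hx'⟩ : ∃ x : ℝ, j l * S = x := ⟨(j l * S).re, (Complex.conj_eq_iff_re.1 hx).symm⟩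
  have h6 : (x : ℂ) ^ N = t := by
    rw [← hx', mul_pow, ← map_pow, ← hμ, h2]
  have h7 : x ^ N = t := by exact_mod_cast h6
  exact ⟨x, hN.pow_pos_iff.1 (by rw [h7]; exact ht), hx'⟩

end Line

theorem cnt_pow {Λ κ : Type} [Finite κ] (w : κ → Option Λ) (N : ℕ) :
    Pool.Agent.TH117.BL.cnt (fun x : Fin N × κ => w x.2) =
      fun l => (N : ℤ) * Pool.Agent.TH117.BL.cnt w l := by
  classical
  funext l
  unfold Pool.Agent.TH117.BL.cnt
  have h1 : {x : Fin N × κ // w x.2 = some l} ≃ Fin N × {k // w k = some l} :=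
    { toFun := fun x => (x.1.1, ⟨x.1.2, x.2⟩)
      invFun := fun y => ⟨(y.1, y.2.1), y.2.2⟩
      left_inv := fun x => rfl
      right_inv := fun y => rfl }
  rw [Nat.card_congr h1, Nat.card_prod, Nat.card_eq_fintype_card (α := Fin N), Fintype.card_fin]
  push_cast
  rfl

section

variable {L : Type} [Field L] [NumberField L] [IsCMField L] [IsGalois ℚ L] {j : L →+* ℂ}
  {Ω : Nat.Primes → Type} [∀ l, Field (Ω l)] [∀ l, CharZero (Ω l)]
  [∀ l : Nat.Primes, Algebra ℚ_[(l : ℕ)] (Ω l)] [∀ l, IsAlgClosed (Ω l)]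
  {C : (Y : RedAV p ν) → (κ : Type) → FCl Ω Y κ → Prop}

/-- The decomposition of the power of a word. -/
theorem word_pow (hC : IsCompatible Ω C) (l0 : Nat.Primes) {K : Type} [Field K] [NumberField K]
    [IsCMField K] {κ0 : K →+* ℂ} {κL : K →+* L} (hκ : j.comp κL = κ0)
    {δ : L} {d : ℚ} (hδ : IsRoot δ d)
    (hfix : ∀ σ : L ≃ₐ[ℚ] L, σ δ = δ → ∀ x, σ (κL x) = κL x)
    {Z : RedAV p ν} (hZ : Big Z.X j) (hkp : BigA (kp p) j) (hrel : HasOddQuadRel κ0 Z)
    {Y : RedAV p ν} (hY : Big Y.X j) (hYZ : IsPowersTimesSupersingular Z Y)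
    (jO : ∀ l, L →+* Ω l) {κ : Type} [Fintype κ] [DecidableEq κ] {s : κ → Wt Y.X L}
    (hs : Function.Injective s) (hbal : ∀ g, ∑ k, tf p ν j (St j (s k)) g = 0)
    (heven : Even (Fintype.card κ)) :
    ∃ (N : ℕ) (YN : RedAV p ν) (S : Fin N × κ → Wt YN.X L) (Y' : RedAV p ν) (κ' : Type)
      (_ : Fintype κ') (_ : DecidableEq κ') (J : κ' → Wt Y'.X L),
      _root_.Odd N ∧ Big YN.X j ∧ Function.Injective S ∧ (∀ x, St j (S x) = St j (s x.2)) ∧
      (∀ c c', Ln (jO l0) (atPrime C l0) Y s c c' →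
        Ln (jO l0) (atPrime C l0) YN S (c ^ N) (c' ^ N)) ∧
      Big Y'.X j ∧ Function.Injective J ∧ Balanced (fun k => St j (J k)) ∧
      (∀ σ : L ≃ₐ[ℚ] L, σ δ = δ → ∃ π : Equiv.Perm κ', ∀ k, sw σ (J k) = J (π k)) ∧
      IsPos (jO l0) (atPrime C l0) j (prodR Y' YN)
        (Sum.elim (fun k => inlW (J k)) fun k => inrW (bar (S k))) := by
  classical
  have hfin := Pool.Agent.W67.TA.finite_wt j hZ
  let _ : Fintype (Wt Z.X L) := Fintype.ofFinite _
  have hC0 := hC.cycle l0
  choose o ho using fun w => weight_cases hY hZ hYZ w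
  -- the exponents
  let w : κ → Option (Wt Z.X L) := fun k => o (s k)
  have hsum : ∀ g, ∑ k, ext0 (tw p ν j Z.X) (w k) g = 0 := by
    intro g
    rw [← hbal g]
    exact Finset.sum_congr rfl fun k _ => by rw [ho (s k)]
  have hbij := toEmb_bijective (j := j) hZ
  let E : Wt Z.X L ≃ Emb Z := Equiv.ofBijective _ hbij
  let e : Emb Z → ℕ := fun u => Nat.card {k // w k = some (E.symm u)}
  have he : ∀ v : Wt Z.X L, (e (toEmb j Z v) : ℤ) = Pool.Agent.TH117.BL.cnt w v := by
    intro v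
    have h1 : E.symm (toEmb j Z v) = v := E.symm_apply_apply v
    change ((Nat.card {k // w k = some (E.symm (toEmb j Z v))} : ℕ) : ℤ) = _
    rw [h1]
    rfl
  have h1 : IsRel Z e := by
    rw [isRel_iff hZ]
    intro σ
    rw [← hsum σ, sum_eq_cnt]
    exact Finset.sum_congr rfl fun v _ => by rw [he]
  obtain ⟨N, hN, hNe⟩ := hrel e h1
  obtain ⟨YN, S, hYN, hS, hSt, hSL⟩ := pow_line (jO := jO l0) (C := atPrime C l0) hC0 hY hs N
  obtain ⟨n, hn, hnrel, hG⟩ := rel_decomp (jO l0) hZ hkp hκ (fun u => N * e u) hNe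
  obtain ⟨h', Y', hY', J, hJ, hJbal, hJN, hJt⟩ := exists_J hδ hZ n
    (fun σ hσ => hn σ (hfix σ hσ)) hnrel
  let wN : Fin N × κ → Option (Wt Z.X L) := fun x => w x.2
  have h3 : (fun l : Wt Z.X L => ((N * e (toEmb j Z l) : ℕ) : ℤ)) =
      Pool.Agent.TH117.BL.cnt wN := by
    rw [cnt_pow w N]
    funext l
    rw [← he l]
    push_cast
    rfl
  have hG' : GenD (AlgM p ν j (jO l0)) (Set.range (ext0 (tw p ν j Z.X)))
      (DD (tw p ν j Z.X) (Pool.Agent.TH117.BL.cnt wN) -
        DD (tw p ν j Z.X) (Pool.Agent.TH117.BL.cnt (fl' n h'))) := by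
    rw [cnt_fl', ← h3]
    exact hG
  have hevenN : Even (Fintype.card (Fin N × κ)) := by
    rw [Fintype.card_prod]
    exact heven.mul_left _
  have hA := alg_K (jO l0) hkp hYN hY' (s := S) (w := wN)
    (fun x => by rw [hSt x]; exact ho (s x.2)) hevenN hJt (even_of_bal hJbal) hG'
  have hS' : Function.Injective fun k => bar (S k) := fun k k' hk => hS (bar_injective hk)
  have hKi : Function.Injective (Sum.elim (fun k => inlW (J k)) fun k => inrW (bar (S k)) :
      _ ⊕ (Fin N × κ) → Wt (prodR Y' YN).X L) := by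
    refine Function.Injective.sumElim ?_ ?_ ?_
    · intro k k' hk
      refine hJ ?_
      have h5 := Sigma.mk.inj_iff.1 hk
      exact Sigma.ext (Sum.inl.inj h5.1) h5.2
    · intro k k' hk
      refine hS' ?_
      have h5 := Sigma.mk.inj_iff.1 hk
      exact Sigma.ext (Sum.inr.inj h5.1) h5.2
    · intro k k' hk
      exact Sum.inl_ne_inr (Sigma.mk.inj_iff.1 hk).1
  have hKp := pos_of_alg hC0 (jO l0) j (big_prodR hY' hYN) hKi hA
  exact ⟨N, YN, S, Y', _, _, _, J, hN, hYN, hS, hSt, hSL, hY', hJ, hJbal, hJN, hKp⟩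

/-- The signs of the words. -/
theorem word_sign_odd (hC : IsCompatible Ω C) (l0 : Nat.Primes)
    (hR : IsRosatiPositive (Ω l0) (atPrime C l0)) {K : Type} [Field K] [NumberField K]
    [IsCMField K] (hK : finrank ℚ K = 2) {κ0 : K →+* ℂ} {κL : K →+* L} (hκ : j.comp κL = κ0)
    {Z : RedAV p ν} (hZ : Big Z.X j) (hkp : BigA (kp p) j) (hrel : HasOddQuadRel κ0 Z)
    {Y : RedAV p ν} (hY : Big Y.X j) (hYZ : IsPowersTimesSupersingular Z Y)
    (jO : ∀ l, L →+* Ω l) {κ : Type} [Fintype κ] [DecidableEq κ] {s : κ → Wt Y.X L}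
    (hs : Function.Injective s) (hbal : ∀ g, ∑ k, tf p ν j (St j (s k)) g = 0)
    (heven : Even (Fintype.card κ)) {c c' : Ω l0} (h : Ln (jO l0) (atPrime C l0) Y s c c')
    (hcc : c * c' ≠ 0) :
    ∃ μ : L, c * c' = jO l0 μ ∧ PosC (j μ * ∏ k, Pool.Agent.TH117.PO.sgn j (s k)) := by
  classical
  have hC0 := hC.cycle l0
  obtain ⟨δ, d, hδ, hfix⟩ := exists_root j hK κL
  obtain ⟨N, YN, S, Y', κ', _, _, J, hN, hYN, hS, hSt, hSL, hY', hJ, hJbal, hJN, hKp⟩ :=
    word_pow hC l0 hκ hδ hfix hZ hkp hrel hY hYZ jO hs hbal heven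
  have hevenN : Even (Fintype.card (Fin N × κ)) := by
    rw [Fintype.card_prod]
    exact heven.mul_left _
  obtain ⟨μ, h1, h2⟩ := sign_div hC0 hR hYN hY' hS hevenN hJ hJbal
    (fun c c' h4 h5 => quad_pos hC hδ jO hY' hJ hJbal hJN l0 h4 h5) hKp (hSL c c' h) (by
      rw [← mul_pow]
      exact pow_ne_zero N hcc)
  refine sign_of_pow hC0 hY hs heven h hN ⟨μ, h1, ?_⟩
  have h3 : ∏ x, Pool.Agent.TH117.PO.sgn j (S x) =
      (∏ k, Pool.Agent.TH117.PO.sgn j (s k)) ^ N := by
    have h4 : ∀ x, Pool.Agent.TH117.PO.sgn j (S x) = Pool.Agent.TH117.PO.sgn j (s x.2) :=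
      fun x => sgn_congr j (hSt x)
    rw [Finset.prod_congr rfl fun x _ => h4 x, Fintype.prod_prod_type]
    dsimp only
    rw [Finset.prod_const, Finset.card_univ, Fintype.card_fin]
  rwa [h3] at h2

/-- The coefficients of a word and of the conjugate word vanish simultaneously. -/
theorem word_both_odd (hC : IsCompatible Ω C) (l0 : Nat.Primes) {K : Type} [Field K]
    [NumberField K] [IsCMField K] (hK : finrank ℚ K = 2) {κ0 : K →+* ℂ} {κL : K →+* L}
    (hκ : j.comp κL = κ0)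
    {Z : RedAV p ν} (hZ : Big Z.X j) (hkp : BigA (kp p) j) (hrel : HasOddQuadRel κ0 Z)
    {Y : RedAV p ν} (hY : Big Y.X j) (hYZ : IsPowersTimesSupersingular Z Y)
    (jO : ∀ l, L →+* Ω l) {κ : Type} [Fintype κ] [DecidableEq κ] {s : κ → Wt Y.X L}
    (hs : Function.Injective s) (hbal : ∀ g, ∑ k, tf p ν j (St j (s k)) g = 0)
    (heven : Even (Fintype.card κ)) {c c' : Ω l0} (h : Ln (jO l0) (atPrime C l0) Y s c c')
    (hns : ¬ Nonempty (K →+* ℚ_[(l0 : ℕ)])) (hcc : c ≠ 0) : c' ≠ 0 := by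
  classical
  have hC0 := hC.cycle l0
  obtain ⟨δ, d, hδ, hfix⟩ := exists_root j hK κL
  have hns' := nonsplit_root hK κL hδ hfix j hns
  obtain ⟨N, YN, S, Y', κ', _, _, J, hN, hYN, hS, hSt, hSL, hY', hJ, hJbal, hJN, hKp⟩ :=
    word_pow hC l0 hκ hδ hfix hZ hkp hrel hY hYZ jO hs hbal heven
  obtain ⟨d1, d1', μK, h11, h12, h13⟩ := hKp
  have hdd : d1 * d1' ≠ 0 := by
    rw [h12]
    refine (map_ne_zero (jO l0)).2 fun h => ?_
    have h4 := h13.1
    rw [h, map_zero, zero_mul] at h4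
    exact h4 rfl
  obtain ⟨δ', hδ', h14⟩ := line_div hC0 hYN hS hJ (hSL c c' h) h11
  have hδ1 : jO l0 δ' ≠ 0 := (map_ne_zero (jO l0)).2 hδ'
  have hne1 : d1 * c ^ N * jO l0 δ' ≠ 0 :=
    mul_ne_zero (mul_ne_zero (left_ne_zero_of_mul hdd) (pow_ne_zero N hcc)) hδ1
  have hne2 := line_both hC hns' hδ jO hY' hJ hJbal hJN h14 hne1
  have hne3 : c' ^ N ≠ 0 := right_ne_zero_of_mul (left_ne_zero_of_mul hne2)
  intro h0
  obtain ⟨M, hM⟩ := hN
  rw [h0, hM, pow_succ, mul_zero] at hne3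
  exact hne3 rfl

end

end

end Pool.Agent.H395.Odd
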