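import Mathlib
import Pool.Agent.H395.Exo.Bridge
import Pool.Agent.H395.Odd.Defs
import Pool.Agent.H395.Odd.Sign

/-!
# Abelian varieties with Weil numbers of local and of quadratic types and odd indices: the relations
between the Frobenius eigenvalues

The frame of the proof of `oddRel_of_shape` is that of `quadRel_of_shape` in
`Pool/Agent/H395/Exo/Bridge.lean`.
-/

set_option autoImplicit false
set_option linter.unusedSectionVars false
set_option linter.unusedVariables false

namespace Pool.Agent.H395.Odd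

open NumberField Finset Module Pool.Agent.H204R3.CM Pool.Agent.H977R3.CM Pool.Agent.TH170.CM
  Pool.Agent.TH170.MF Pool.Agent.W495.TA Pool.Agent.TH117 Pool.Agent.TH170.FW Pool.Agent.TH170
  Pool.Agent.Y156.P Pool.Agent.Y137.MV Pool.Agent.H395.Exo

noncomputable section

variable {p : ℕ} [hp : Fact p.Prime] {ν : PadicAlgCl p ≃+* ℂ} {a : ℕ} {I : Type} [Fintype I]
  {K : I → Type} [∀ i, Field (K i)] [∀ i, NumberField (K i)] [∀ i, IsCMField (K i)]
  {k : Type} [Field k] [NumberField k] [IsCMField k] {κ : k →+* ℂ} {J : Set I}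
  {ϑ : ∀ i, i ∈ J → (k →+* K i)}

/-- The number of the extensions of an embedding. -/
theorem card_ext {K E : Type} [Field K] [NumberField K] [Field E] [NumberField E] (θ : K →+* E)
    (φ : K →+* ℂ) {d : ℕ} (hd : finrank ℚ E = d * finrank ℚ K) :
    Fintype.card {χ : E →+* ℂ // χ.comp θ = φ} = d := by
  classical
  let _ : Algebra K E := θ.toAlgebra
  let _ : Algebra K ℂ := φ.toAlgebra
  have hT : IsScalarTower ℚ K E := IsScalarTower.rat
  have hfin : FiniteDimensional K E := FiniteDimensional.right ℚ K E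
  have h1 : Fintype.card (E →ₐ[K] ℂ) = finrank K E := AlgHom.card K E ℂ
  have h2 : finrank ℚ K * finrank K E = finrank ℚ E := Module.finrank_mul_finrank ℚ K E
  have h3 : finrank K E = d := by
    rw [hd, mul_comm d] at h2
    exact Nat.eq_of_mul_eq_mul_left finrank_pos h2
  rw [← h3, ← h1]
  exact Fintype.card_congr
    { toFun := fun χ => { toRingHom := χ.1, commutes' := fun x => RingHom.congr_fun χ.2 x }
      invFun := fun χ => ⟨χ.toRingHom, RingHom.ext fun x => χ.commutes x⟩
      left_inv := fun χ => rfl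
      right_inv := fun χ => rfl }

/-- Some odd multiples of all relations between the Frobenius eigenvalues are generated by
elementary relations and by relations which are invariant under the automorphisms over `k`. -/
theorem oddRel_of_shape (ha : 0 < a) (hk : finrank ℚ k = 2) {π : ∀ i, K i}
    (hw : ∀ i, π i * IsCMField.complexConj (K i) (π i) = (p : K i) ^ a)
    (hS : QuadShape (p ^ a) π κ J ϑ) {Y : RedAV p ν} (hY : OfNumbersOdd J π Y) :
    HasOddQuadRel κ Y := by
  classical
  intro e he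
  let S : Y.X.I → Prop := fun k => GS.IsSupersingular p Y.a (Y.π k)
  have hY' : ∀ k, ¬ S k → ∃ (i : I) (θ : K i →+* (Y.X.factor k).E) (m s : ℕ),
      (i ∈ J → ∃ d : ℕ, _root_.Odd d ∧ finrank ℚ (Y.X.factor k).E = d * finrank ℚ (K i)) ∧
      0 < m ∧ 0 < s ∧ θ (π i ^ m) = Y.π k ^ s := fun k hk => (hY k).resolve_left hk
  choose t θ m s hidx hm hs hθ using hY'
  choose s' hs' hss' using fun k (h : S k) => h
  have hp0 : (p : ℂ) ≠ 0 := Nat.cast_ne_zero.2 hp.out.ne_zero
  have hexp : ∀ k (h : ¬ S k), a * m k h = Y.a * s k h := by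
    intro k h
    obtain ⟨χ⟩ : Nonempty ((Y.X.factor k).E →+* ℂ) := inferInstance
    have h1 : ‖χ (Y.π k)‖ ^ 2 = (p : ℝ) ^ Y.a := (Y.frob k).weil χ
    have hQ : π (t k h) * IsCMField.complexConj (K (t k h)) (π (t k h)) =
        ((p ^ a : ℕ) : K (t k h)) := by
      rw [hw]
      push_cast
      rfl
    have h2 := norm_sq_weil hQ (χ.comp (θ k h))
    have h3 : χ (Y.π k) ^ s k h = (χ.comp (θ k h)) (π (t k h)) ^ m k h := by
      rw [← map_pow, ← hθ, ← map_pow (χ.comp (θ k h))]
      rfl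
    have h4 : (‖χ (Y.π k)‖ ^ 2) ^ s k h = (‖(χ.comp (θ k h)) (π (t k h))‖ ^ 2) ^ m k h := by
      rw [← pow_mul, ← pow_mul, mul_comm 2 (s k h), mul_comm 2 (m k h), pow_mul, pow_mul,
        ← norm_pow (χ (Y.π k)), ← norm_pow ((χ.comp (θ k h)) (π (t k h))), h3]
    rw [h1, h2] at h4
    push_cast at h4
    rw [← pow_mul, ← pow_mul] at h4
    exact (Nat.pow_right_injective hp.out.two_le (by exact_mod_cast h4)).symm
  let X : Type := Σ i, (K i →+* ℂ)
  let inv : X → X := fun z => ⟨z.1, ComplexEmbedding.conjugate z.2⟩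
  have hinv : ∀ z, inv (inv z) = z := by
    rintro ⟨i, φ⟩
    simp only [inv, conj_conj]
  let val : X → ℂ := fun z => z.2 (π z.1)
  have hval : ∀ z, val z * val (inv z) = (p : ℂ) ^ a := by
    rintro ⟨i, φ⟩
    have h1 := congrArg φ (hw i)
    rw [map_mul, IsCMField.complexEmbedding_complexConj, map_pow, map_natCast] at h1
    exact h1
  let F : BL.Emb Y → Option X := fun w =>
    if h : S w.1 then none else some ⟨t w.1 h, w.2.comp (θ w.1 h)⟩
  have hF1 : ∀ w, S w.1 → F w = none := fun w h => dif_pos h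
  have hF2 : ∀ w (h : ¬ S w.1), F w = some ⟨t w.1 h, w.2.comp (θ w.1 h)⟩ := fun w h => dif_neg h
  have hFc : ∀ w z, F w = some z → F (GS.conjE w) = some (inv z) := by
    intro w z hz
    by_cases h : S w.1
    · rw [hF1 w h] at hz
      exact absurd hz (by simp)
    · rw [hF2 w h] at hz
      rw [← Option.some.inj hz, hF2 (GS.conjE w) h]
      rfl
  -- common exponents
  let r : Y.X.I → ℕ := fun k => if h : S k then s' k h else s k h
  have hrpos : ∀ k, 0 < r k := by
    intro k
    by_cases h : S k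
    · simp only [r, dif_pos h]
      exact hs' k h
    · simp only [r, dif_neg h]
      exact hs k h
  let P : ℕ := ∏ k, r k
  have hPpos : 0 < P := Finset.prod_pos fun k _ => hrpos k
  have hPdvd : ∀ k, ∃ c, P = r k * c := fun k => Finset.dvd_prod_of_mem r (mem_univ k)
  have hA1 : ∀ w z, F w = some z → BL.eig Y w ^ (P * a) = val z ^ (Y.a * P) := by
    intro w z hz
    have h : ¬ S w.1 := fun h => by
      rw [hF1 w h] at hz
      exact absurd hz (by simp)
    rw [hF2 w h] at hz
    rw [← Option.some.inj hz]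
    obtain ⟨c, hc⟩ := hPdvd w.1
    have hr : r w.1 = s w.1 h := dif_neg h
    have h1 : BL.eig Y w ^ s w.1 h = val ⟨t w.1 h, w.2.comp (θ w.1 h)⟩ ^ m w.1 h := by
      change (w.2 (Y.π w.1)) ^ s w.1 h = (w.2 (θ w.1 h (π (t w.1 h)))) ^ m w.1 h
      rw [← map_pow, ← hθ, ← map_pow, ← map_pow]
    have h2 : P * a = s w.1 h * (c * a) := by rw [hc, hr]; ring
    have h3 : Y.a * P = m w.1 h * (c * a) := by
      have h4 := hexp w.1 h
      calc Y.a * P = (Y.a * s w.1 h) * c := by rw [hc, hr]; ring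
        _ = (a * m w.1 h) * c := by rw [h4]
        _ = m w.1 h * (c * a) := by ring
    rw [h2, pow_mul, h1, ← pow_mul, h3]
  have hA2 : ∀ w, F w = none → BL.eig Y w ^ (2 * P) = ((p : ℂ) ^ Y.a) ^ P := by
    intro w hz
    have h : S w.1 := by
      by_contra h
      rw [hF2 w h] at hz
      exact absurd hz (by simp)
    obtain ⟨c, hc⟩ := hPdvd w.1
    have hr : r w.1 = s' w.1 h := dif_pos h
    have h1 : BL.eig Y w ^ (2 * s' w.1 h) = ((p : ℂ) ^ Y.a) ^ s' w.1 h := by
      change (w.2 (Y.π w.1)) ^ (2 * s' w.1 h) = _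
      rw [← map_pow, hss' w.1 h, map_pow, map_pow, map_natCast]
    have h2 : 2 * P = (2 * s' w.1 h) * c := by rw [hc, hr]; ring
    rw [h2, pow_mul, h1, ← pow_mul, hc, hr]
  -- the exponents
  let E : X → ℕ := fun z => ∑ w, (if F w = some z then e w else 0)
  let D : X → ℤ := fun z => (E z : ℤ) - E (inv z)
  have hE : (∀ z, z.1 ∉ J → D z = 0) ∧ ∀ i (hi : i ∈ J) (φ ψ : K i →+* ℂ),
      φ.comp (ϑ i hi) = κ → ψ.comp (ϑ i hi) = κ → D ⟨i, φ⟩ = D ⟨i, ψ⟩ := by
    obtain ⟨s₀, hs₀, hrel⟩ := he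
    have hw1 : ∀ w : BL.Emb Y, (BL.eig Y w ^ e w) ^ (2 * s₀ * (P * a)) =
        ((p : ℂ) ^ a) ^ (Y.a * P * s₀ * (if F w = none then e w else 0)) *
          ∏ z, val z ^ (2 * (Y.a * P) * s₀ * (if F w = some z then e w else 0)) := by
      intro w
      rcases hFw : F w with _ | z
      · have h1 : ∀ z : X, val z ^ (2 * (Y.a * P) * s₀ *
            (if (none : Option X) = some z then e w else 0)) = 1 := by
          intro z
          rw [if_neg (by simp), mul_zero, pow_zero]
        rw [Finset.prod_congr rfl fun z _ => h1 z, Finset.prod_const_one, mul_one, if_pos rfl]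
        have h2 : e w * (2 * s₀ * (P * a)) = (2 * P) * (a * s₀ * e w) := by ring
        rw [← pow_mul, h2, pow_mul, hA2 w hFw, ← pow_mul, ← pow_mul, ← pow_mul]
        congr 1
        ring
      · rw [if_neg (by simp), mul_zero, pow_zero, one_mul]
        rw [Finset.prod_eq_single z]
        · rw [if_pos rfl, ← pow_mul]
          have h2 : e w * (2 * s₀ * (P * a)) = (P * a) * (2 * s₀ * e w) := by ring
          rw [h2, pow_mul, hA1 w z hFw, ← pow_mul]
          congr 1
          ring
        · intro z' _ hz'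
          rw [if_neg (fun h => hz' (Option.some.inj h).symm), mul_zero, pow_zero]
        · intro h
          exact absurd (mem_univ _) h
    have h1 : ((p : ℂ) ^ a) ^ (Y.a * P * s₀ * (∑ w, if F w = none then e w else 0)) *
        ∏ z, val z ^ (2 * (Y.a * P) * s₀ * E z) = ((p : ℂ) ^ a) ^ (Y.a * P * s₀ * ∑ w, e w) := by
      have h2 : (∏ w, BL.eig Y w ^ e w) ^ (2 * s₀ * (P * a)) =
          ((p : ℂ) ^ a) ^ (Y.a * P * s₀ * ∑ w, e w) := by
        rw [pow_mul, hrel, ← pow_mul, ← pow_mul, ← pow_mul]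
        congr 1
        ring
      rw [← h2, ← Finset.prod_pow, Finset.prod_congr rfl fun w _ => hw1 w,
        Finset.prod_mul_distrib]
      congr 1
      · rw [Finset.prod_pow_eq_pow_sum, Finset.mul_sum]
      · rw [Finset.prod_comm]
        refine Finset.prod_congr rfl fun z _ => ?_
        rw [Finset.prod_pow_eq_pow_sum, ← Finset.mul_sum]
    have hq0 : ((p : ℂ) ^ a) ≠ 0 := pow_ne_zero _ hp0
    have h3 : ∏ z : X, (z.2 (π z.1)) ^ (((2 * (Y.a * P) * s₀ * E z : ℕ)) : ℤ) =
        ((p ^ a : ℕ) : ℂ) ^ (((Y.a * P * s₀ * ∑ w, e w : ℕ) : ℤ) -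
          ((Y.a * P * s₀ * (∑ w, if F w = none then e w else 0) : ℕ) : ℤ)) := by
      have h4 : ((p ^ a : ℕ) : ℂ) = (p : ℂ) ^ a := by push_cast; rfl
      rw [h4, zpow_sub₀ hq0, zpow_natCast, zpow_natCast, ← h1, mul_div_cancel_left₀ _
        (pow_ne_zero _ hq0)]
      exact Finset.prod_congr rfl fun z _ => by rw [zpow_natCast]
    have hpos : ((2 * (Y.a * P) * s₀ : ℕ) : ℤ) ≠ 0 := by
      have h4 := Nat.mul_pos (Nat.mul_pos two_pos (Nat.mul_pos Y.pos hPpos)) hs₀
      exact_mod_cast h4.ne'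
    obtain ⟨h4, h5⟩ := hS _ (fun z : X => (((2 * (Y.a * P) * s₀ * E z : ℕ)) : ℤ)) h3
    refine ⟨?_, ?_⟩
    · rintro ⟨i, φ⟩ hi
      have h6 := h4 i hi φ
      apply mul_left_cancel₀ hpos
      change ((2 * (Y.a * P) * s₀ : ℕ) : ℤ) * ((E ⟨i, φ⟩ : ℤ) -
        E ⟨i, ComplexEmbedding.conjugate φ⟩) = _
      push_cast at h6 ⊢
      linarith
    · intro i hi φ ψ hφ hψ
      have h6 := h5 i hi φ ψ hφ hψ
      apply mul_left_cancel₀ hpos
      change ((2 * (Y.a * P) * s₀ : ℕ) : ℤ) * ((E ⟨i, φ⟩ : ℤ) -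
        E ⟨i, ComplexEmbedding.conjugate φ⟩) = ((2 * (Y.a * P) * s₀ : ℕ) : ℤ) * ((E ⟨i, ψ⟩ : ℤ) -
        E ⟨i, ComplexEmbedding.conjugate ψ⟩)
      push_cast at h6 ⊢
      linarith
  have hDinv : ∀ z, D (inv z) = - D z := by
    intro z
    simp only [D, hinv]
    ring
  have hDval : ∀ z, D z = (∑ w, (if F w = some z then (e w : ℤ) else 0)) -
      ∑ w, (if F w = some (inv z) then (e w : ℤ) else 0) := by
    intro z
    simp only [D, E]
    push_cast
    rfl
  have hDfix : ∀ (σ : ℂ ≃+* ℂ), (∀ x, σ (κ x) = κ x) → ∀ i (φ : K i →+* ℂ),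
      D ⟨i, (σ : ℂ →+* ℂ).comp φ⟩ = D ⟨i, φ⟩ := by
    intro σ hσ i φ
    by_cases hi : i ∈ J
    · have hkeep : ∀ χ : K i →+* ℂ, χ.comp (ϑ i hi) = κ →
          ((σ : ℂ →+* ℂ).comp χ).comp (ϑ i hi) = κ := by
        intro χ hχ
        ext x
        have h2 : χ (ϑ i hi x) = κ x := RingHom.congr_fun hχ x
        change σ (χ (ϑ i hi x)) = κ x
        rw [h2, hσ]
      rcases emb_quad hk κ (φ.comp (ϑ i hi)) with h1 | h1
      · exact hE.2 i hi _ _ (hkeep φ h1) h1
      · have h2 : (ComplexEmbedding.conjugate φ).comp (ϑ i hi) = κ := by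
          have h3 : (ComplexEmbedding.conjugate φ).comp (ϑ i hi) =
              ComplexEmbedding.conjugate (φ.comp (ϑ i hi)) := rfl
          rw [h3, h1, ComplexEmbedding.involutive_conjugate k κ]
        have h4 := hE.2 i hi _ _ (hkeep _ h2) h2
        have h5 : (⟨i, (σ : ℂ →+* ℂ).comp (ComplexEmbedding.conjugate φ)⟩ : X) =
            inv ⟨i, (σ : ℂ →+* ℂ).comp φ⟩ := by
          change (⟨i, (σ : ℂ →+* ℂ).comp (ComplexEmbedding.conjugate φ)⟩ : X) =
            ⟨i, ComplexEmbedding.conjugate ((σ : ℂ →+* ℂ).comp φ)⟩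
          rw [comp_conj]
        have h6 : (⟨i, ComplexEmbedding.conjugate φ⟩ : X) = inv ⟨i, φ⟩ := rfl
        rw [h5, h6, hDinv, hDinv] at h4
        exact neg_injective h4
    · rw [hE.1 ⟨i, _⟩ hi, hE.1 ⟨i, _⟩ hi]
  -- one factor for each field
  obtain ⟨k₀, hk₀⟩ : ∃ k₀ : I → Option Y.X.I, ∀ i, (∃ l, ∃ h : ¬ S l, t l h = i) →
      ∃ l, k₀ i = some l ∧ ∃ h : ¬ S l, t l h = i := by
    refine ⟨fun i => if hex : ∃ l, ∃ h : ¬ S l, t l h = i then some hex.choose else none,
      fun i hex => ⟨hex.choose, dif_pos hex, hex.choose_spec⟩⟩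
  let chosen : Y.X.I → Prop := fun l => ∃ h : ¬ S l, t l h ∈ J ∧ k₀ (t l h) = some l
  -- the indices
  obtain ⟨dd, hdd, hddodd⟩ : ∃ dd : Y.X.I → ℕ, (∀ l (h : ¬ S l), t l h ∈ J →
      finrank ℚ (Y.X.factor l).E = dd l * finrank ℚ (K (t l h))) ∧ ∀ l, _root_.Odd (dd l) := by
    have h1 : ∀ l, ∃ d : ℕ, (∀ (h : ¬ S l), t l h ∈ J →
        finrank ℚ (Y.X.factor l).E = d * finrank ℚ (K (t l h))) ∧ _root_.Odd d := by
      intro l
      by_cases h : ∃ h : ¬ S l, t l h ∈ J
      · obtain ⟨h2, h3⟩ := h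
        obtain ⟨d, hd, h4⟩ := hidx l h2 h3
        exact ⟨d, fun _ _ => h4, hd⟩
      · exact ⟨1, fun h2 h3 => absurd ⟨h2, h3⟩ h, odd_one⟩
    choose dd h2 h3 using h1
    exact ⟨dd, h2, h3⟩
  let N : ℕ := ∏ l, dd l
  have hNodd : _root_.Odd N :=
    Finset.prod_induction dd _root_.Odd (fun _ _ h h' => h.mul h') odd_one fun l _ => hddodd l
  have hNdvd : ∀ l, dd l * (N / dd l) = N := fun l =>
    Nat.mul_div_cancel' (Finset.dvd_prod_of_mem dd (mem_univ l))
  let n : BL.Emb Y → ℕ := fun w =>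
    if chosen w.1 then (F w).elim 0 (fun z => (N / dd w.1) * (D z).toNat) else 0
  have hninv : N202.QR.IsInvariant κ Y n := by
    intro σ hσ w
    have hF3 : (F ⟨w.1, (σ : ℂ →+* ℂ).comp w.2⟩).elim 0 (fun z => (N / dd w.1) * (D z).toNat) =
        (F w).elim 0 (fun z => (N / dd w.1) * (D z).toNat) := by
      by_cases h : S w.1
      · rw [hF1 w h, hF1 ⟨w.1, (σ : ℂ →+* ℂ).comp w.2⟩ h]
      · rw [hF2 w h, hF2 ⟨w.1, (σ : ℂ →+* ℂ).comp w.2⟩ h]
        simp only [Option.elim_some]
        have h1 := hDfix σ hσ (t w.1 h) (w.2.comp (θ w.1 h))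
        have h2 : (σ : ℂ →+* ℂ).comp (w.2.comp (θ w.1 h)) =
            ((σ : ℂ →+* ℂ).comp w.2).comp (θ w.1 h) := rfl
        rw [h2] at h1
        rw [h1]
    simp only [n]
    rw [hF3]
  have hN : ∀ z, ∑ w, (if F w = some z then (n w : ℤ) else 0) = (N : ℤ) * ((D z).toNat : ℤ) := by
    rintro ⟨i, φ⟩
    by_cases hi : i ∈ J
    · by_cases hex : ∃ w, F w = some ⟨i, φ⟩
      · have hex' : ∃ l, ∃ h : ¬ S l, t l h = i := by
          obtain ⟨w, hw⟩ := hex
          by_cases h : S w.1
          · rw [hF1 w h] at hw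
            exact absurd hw (by simp)
          · rw [hF2 w h] at hw
            exact ⟨w.1, h, congrArg Sigma.fst (Option.some.inj hw)⟩
        obtain ⟨l, hl, hSl, htl⟩ := hk₀ i hex'
        subst htl
        have hch : chosen l := ⟨hSl, hi, hl⟩
        have hcard := card_ext (θ l hSl) φ (hdd l hSl hi)
        let T := {χ : (Y.X.factor l).E →+* ℂ // χ.comp (θ l hSl) = φ}
        let g : T → BL.Emb Y := fun χ => ⟨l, χ.1⟩
        have hg : Function.Injective g := by
          intro χ χ' h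
          exact Subtype.ext (eq_of_heq (Sigma.mk.inj h).2)
        have hFg : ∀ χ : T, F (g χ) = some ⟨t l hSl, φ⟩ := by
          intro χ
          have h1 := hF2 ⟨l, χ.1⟩ hSl
          rw [h1]
          change some (⟨t l hSl, χ.1.comp (θ l hSl)⟩ : X) = _
          rw [χ.2]
        have hng : ∀ χ : T, n (g χ) = (N / dd l) * (D ⟨t l hSl, φ⟩).toNat := by
          intro χ
          have h2 : n (g χ) = if chosen l then (F (g χ)).elim 0
              (fun z => (N / dd l) * (D z).toNat) else 0 := rfl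
          rw [h2, if_pos hch, hFg]
          rfl
        have himg : ∀ w : BL.Emb Y, w ∉ Set.range g →
            (if F w = some (⟨t l hSl, φ⟩ : X) then (n w : ℤ) else 0) = 0 := by
          rintro ⟨l', χ'⟩ hne
          by_cases hF' : F ⟨l', χ'⟩ = some ⟨t l hSl, φ⟩
          · rw [if_pos hF']
            by_cases hch' : chosen l'
            · exfalso
              obtain ⟨hSl', hJ', hl'⟩ := hch'
              have h1 := hF2 ⟨l', χ'⟩ hSl'
              have h2 : (⟨t l' hSl', χ'.comp (θ l' hSl')⟩ : X) = ⟨t l hSl, φ⟩ :=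
                Option.some.inj (h1.symm.trans hF')
              have h3 : t l' hSl' = t l hSl := congrArg Sigma.fst h2
              rw [h3, hl] at hl'
              have h4 : l = l' := Option.some.inj hl'
              subst h4
              exact hne ⟨⟨χ', eq_of_heq (Sigma.mk.inj h2).2⟩, rfl⟩
            · have h2 : n ⟨l', χ'⟩ = if chosen l' then
                  (F ⟨l', χ'⟩).elim 0 (fun z => (N / dd l') * (D z).toNat) else 0 := rfl
              rw [h2, if_neg hch', Nat.cast_zero]
          · rw [if_neg hF']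
        have h5 : ∑ w, (if F w = some (⟨t l hSl, φ⟩ : X) then (n w : ℤ) else 0) =
            ∑ χ : T, (((N / dd l) * (D ⟨t l hSl, φ⟩).toNat : ℕ) : ℤ) := by
          rw [← Finset.sum_subset (Finset.subset_univ (univ.image g)) fun w _ hw =>
            himg w fun ⟨χ, hχ⟩ => hw (Finset.mem_image.2 ⟨χ, mem_univ _, hχ⟩),
            Finset.sum_image fun χ _ χ' _ h => hg h]
          exact Finset.sum_congr rfl fun χ _ => by rw [if_pos (hFg χ), hng]
        rw [h5, Finset.sum_const, Finset.card_univ, hcard, nsmul_eq_mul]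
        have h6 : (dd l : ℤ) * ((N / dd l : ℕ) : ℤ) = N := by exact_mod_cast hNdvd l
        rw [← h6]
        push_cast
        ring
      · have h1 : ∀ w, ¬ F w = some ⟨i, φ⟩ := fun w hw => hex ⟨w, hw⟩
        have h2 : ∀ w, ¬ F w = some (inv ⟨i, φ⟩) := by
          intro w hw
          have h3 := hFc w _ hw
          rw [hinv] at h3
          exact h1 _ h3
        rw [hDval, Finset.sum_eq_zero fun w _ => if_neg (h1 w),
          Finset.sum_eq_zero fun w _ => if_neg (h1 w), Finset.sum_eq_zero fun w _ => if_neg (h2 w)]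
        simp
    · have h1 : D ⟨i, φ⟩ = 0 := hE.1 _ hi
      rw [h1, Int.toNat_zero, Nat.cast_zero, mul_zero]
      refine Finset.sum_eq_zero fun w _ => ?_
      by_cases hw : F w = some ⟨i, φ⟩
      · rw [if_pos hw]
        have h2 : n w = if chosen w.1 then
            (F w).elim 0 (fun z => (N / dd w.1) * (D z).toNat) else 0 := rfl
        rw [h2, hw]
        simp only [Option.elim_some, h1, Int.toNat_zero, mul_zero, ite_self, Nat.cast_zero]
      · rw [if_neg hw]
  have hmem : (fun w => (N : ℤ) * (e w : ℤ) - n w) ∈ AddSubgroup.closure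
      {d : BL.Emb Y → ℤ | ∃ n : BL.Emb Y → ℕ, BL.IsRel Y n ∧ BL.IsElementary Y n ∧
        ∀ w, d w = n w} := by
    refine GS.mem_of_symm _ F inv hinv ?_ ?_ ?_ ?_ (fun w => (N : ℤ) * (e w : ℤ) - n w) ?_
    · rintro ⟨i, φ⟩ h
      exact conj_ne φ (eq_of_heq (Sigma.mk.inj h).2)
    · intro w hw
      apply GS.single_mem
      by_contra h
      have h1 := hF2 w h
      rw [hw] at h1
      exact absurd h1 (by simp)
    · intro w w' z hz hz'
      have hsum : ∑ v, (Pi.single w 1 + Pi.single w' 1 : BL.Emb Y → ℕ) v = 2 := by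
        simp only [Pi.add_apply, sum_add_distrib, Finset.sum_pi_single', mem_univ, if_true]
      refine AddSubgroup.subset_closure ⟨Pi.single w 1 + Pi.single w' 1, ?_, Or.inl hsum.le,
        fun v => ?_⟩
      · refine ⟨P * a, Nat.mul_pos hPpos ha, ?_⟩
        have h1 : ∏ v, BL.eig Y v ^ (Pi.single w 1 + Pi.single w' 1 : BL.Emb Y → ℕ) v =
            BL.eig Y w * BL.eig Y w' := by
          simp only [Pi.add_apply, pow_add, Finset.prod_mul_distrib]
          congr 1
          · rw [Finset.prod_eq_single w]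
            · rw [Pi.single_eq_same, pow_one]
            · intro v _ hv
              rw [Pi.single_eq_of_ne hv, pow_zero]
            · intro h
              exact absurd (mem_univ _) h
          · rw [Finset.prod_eq_single w']
            · rw [Pi.single_eq_same, pow_one]
            · intro v _ hv
              rw [Pi.single_eq_of_ne hv, pow_zero]
            · intro h
              exact absurd (mem_univ _) h
        rw [h1, hsum, mul_comm 2 (P * a), pow_mul, mul_pow, hA1 w z hz, hA1 w' (inv z) hz',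
          ← mul_pow, hval, ← pow_mul, ← pow_mul, ← pow_mul]
        congr 1
        ring
      · simp only [Pi.add_apply, Nat.cast_add]
        congr 1
        · by_cases hv : v = w
          · subst hv
            simp
          · rw [Pi.single_eq_of_ne hv, Pi.single_eq_of_ne hv]
            simp
        · by_cases hv : v = w'
          · subst hv
            simp
          · rw [Pi.single_eq_of_ne hv, Pi.single_eq_of_ne hv]
            simp
    · intro w z hz
      exact ⟨GS.conjE w, hFc w z hz⟩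
    · intro z
      have h1 : ∀ z, ∑ w, (if F w = some z then ((N : ℤ) * (e w : ℤ) - n w) else 0) =
          (N : ℤ) * (∑ w, (if F w = some z then (e w : ℤ) else 0)) -
            ∑ w, (if F w = some z then (n w : ℤ) else 0) := by
        intro z
        rw [Finset.mul_sum, ← Finset.sum_sub_distrib]
        refine Finset.sum_congr rfl fun w _ => ?_
        split_ifs <;> ring
      rw [h1, h1, hN, hN, hDinv]
      have h2 := hDval z
      have h3 := Int.toNat_sub_toNat_neg (D z)
      linear_combination (-(N : ℤ)) * h2 - (N : ℤ) * h3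
  have hle : AddSubgroup.closure {d : BL.Emb Y → ℤ | ∃ n : BL.Emb Y → ℕ, BL.IsRel Y n ∧
      BL.IsElementary Y n ∧ ∀ w, d w = n w} ≤ relGroup Y := by
    rw [AddSubgroup.closure_le]
    rintro d ⟨n', h1, -, h2⟩
    have h3 : d = fun w => (n' w : ℤ) := funext h2
    rw [h3]
    exact (mem_relGroup n').2 h1
  have hrn : BL.IsRel Y n := by
    rw [← mem_relGroup]
    have h1 := (relGroup Y).sub_mem ((relGroup Y).nsmul_mem ((mem_relGroup e).2 he) N) (hle hmem)
    have h2 : ((N • fun w => (e w : ℤ)) - fun w => (N : ℤ) * (e w : ℤ) - n w) =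
        fun w => (n w : ℤ) := by
      funext w
      change (N • (fun w => (e w : ℤ))) w - ((N : ℤ) * (e w : ℤ) - n w) = n w
      rw [Pi.smul_apply, nsmul_eq_mul]
      ring
    rwa [h2] at h1
  have h1 : (fun w => ((N * e w : ℕ) : ℤ)) =
      (fun w => (N : ℤ) * (e w : ℤ) - n w) + fun w => (n w : ℤ) := by
    funext w
    simp only [Pi.add_apply]
    push_cast
    ring
  refine ⟨N, hNodd, ?_⟩
  rw [h1]
  refine AddSubgroup.add_mem _ (AddSubgroup.closure_mono ?_ hmem)
    (AddSubgroup.subset_closure ⟨n, hrn, Or.inr hninv, fun w => rfl⟩)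
  rintro d ⟨n', h2, h3, h4⟩
  exact ⟨n', h2, Or.inl h3, h4⟩

end

end Pool.Agent.H395.Odd
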