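import Mathlib
import Pool.Agent.H395.Cyc.Stm

/-!
# Abelian varieties over finite fields whose exotic Tate classes come from one imaginary quadratic
field, with endomorphism algebras of odd index: definitions
-/

set_option autoImplicit false

namespace Pool.Agent.H395.Odd

open NumberField Module Pool.Agent.W495.TA Pool.Agent.TH117.PO Pool.Agent.Q29.HT Pool.Agent.TH170
  Pool.Agent.N202.QR Pool.Agent.Y137.HD Pool.Agent.H395.Cyc

variable {p a : ℕ} {I : Type} [Fact p.Prime]

/-- A power of `y` is the image of a power of `x` under an embedding of number fields, the degree of
which is an odd number if `P` holds. -/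
def IsPowerOf {E E' : Type} [Field E] [NumberField E] [Field E'] [NumberField E'] (P : Prop)
    (x : E) (y : E') : Prop :=
  ∃ (θ : E →+* E') (m s : ℕ), (P → ∃ d : ℕ, Odd d ∧ finrank ℚ E' = d * finrank ℚ E) ∧
    0 < m ∧ 0 < s ∧ θ (x ^ m) = y ^ s

/-- Each simple factor of the abelian variety `Y` over a finite field is supersingular, or some
positive power of its Frobenius endomorphism is the image of a positive power of one of the numbers
`π i` under an embedding of the field `K i` in the CM field of the factor, the degree of which over
`K i` is odd if `i` is in `J`. In other words `Y` is, over an algebraic closure, isogenous to the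
product of a supersingular abelian variety and of powers of the abelian varieties with the Weil
numbers `π i`, and the algebras of endomorphisms of those with `i` in `J`, division algebras with
the centres `K i` of dimension `d i ^ 2`, have an odd index `d i` (the dimension of these abelian
varieties is `d i` times half of the degree of `K i`, and the index is one if and only if the algebra
is commutative). -/
def OfNumbers {ν : PadicAlgCl p ≃+* ℂ} (J : Set I) (W : I → WeilNum p a) (Y : RedAV p ν) : Prop :=
  ∀ k : Y.X.I, GS.IsSupersingular p Y.a (Y.π k) ∨ ∃ i, IsPowerOf (i ∈ J) (W i).num (Y.π k)

/-- The standard conjecture of Hodge type, modulo numerical equivalence, for all abelian varieties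
`Y` over an algebraic closure of the field with `p` elements which are isogenous to products of
powers of the abelian varieties with the Weil numbers `π i` and of supersingular ones
(`OfNumbers`), with all polarizations compatible with the complex multiplications of the lifting,
and for **all** varieties over arbitrary fields of characteristic `p` which specialize to them. -/
def NumPositive (ν : PadicAlgCl p ≃+* ℂ) (J : Set I) (W : I → WeilNum p a) : Prop :=
  ∀ (F : Coef) (C : Sys p ν F), IsTheory C → ∀ (l : Nat.Primes) (Y : RedAV p ν), OfNumbers J W Y →
    ∀ α : H1 Y, IsPolarization α → C.HodgeType l Y α (fun _ z => ¬ C.NumTrivial z) ∧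
      ∀ R sp, C.SpecializesTo l Y α R sp → R.HodgeNum

/-- The standard conjecture of Hodge type for `l`-adic cohomology, `l` in the set `S` of prime
numbers, and the coincidence of numerical and `l`-adic homological equivalence, for the same abelian
varieties `Y` and **all** varieties which specialize to them (for the coincidence of the two
equivalence relations we assume the conjecture `A` of Lefschetz type, `LefschetzA`, a theorem for
abelian varieties). -/
def HomPositive (ν : PadicAlgCl p ≃+* ℂ) (S : Set Nat.Primes) (J : Set I) (W : I → WeilNum p a) :
    Prop :=
  ∀ (F : Coef) (C : Sys p ν F), IsTheory C → ∀ l ∈ S, ∀ Y : RedAV p ν, OfNumbers J W Y →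
    ∀ α : H1 Y, IsPolarization α → C.HodgeType l Y α (fun _ z => ∃ v, z v ≠ 0) ∧
      ∀ R sp, C.SpecializesTo l Y α R sp → HodgePositive R.n R.gr R.deg R.D ∧
        (LefschetzA R.n R.gr R.D → NumEqHom R.n R.gr R.deg)

end Pool.Agent.H395.Odd
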