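import Mathlib
import Pool.Agent.H395.Odd.Stm

/-!
# The standard conjecture of Hodge type for classes of abelian varieties over finite fields:
definitions
-/

set_option autoImplicit false

namespace Pool.Agent.H395.Odd

open NumberField Module Pool.Agent.W495.TA Pool.Agent.TH117.PO Pool.Agent.Q29.HT Pool.Agent.TH170
  Pool.Agent.N202.QR Pool.Agent.Y137.HD Pool.Agent.H395.Cyc

variable {p a : ℕ} {I : Type} [Fact p.Prime] {ν : PadicAlgCl p ≃+* ℂ}

/-- The standard conjecture of Hodge type, modulo numerical equivalence, for all abelian varieties
`Y` over an algebraic closure of the field with `p` elements in the class `𝒞` (given by their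
reductions of CM type), with all polarizations compatible with the complex multiplications of the
lifting, and for **all** varieties over arbitrary fields of characteristic `p` which specialize to
them. -/
def NumPositiveOn (𝒞 : RedAV p ν → Prop) : Prop :=
  ∀ (F : Coef) (C : Sys p ν F), IsTheory C → ∀ (l : Nat.Primes) (Y : RedAV p ν), 𝒞 Y →
    ∀ α : H1 Y, IsPolarization α → C.HodgeType l Y α (fun _ z => ¬ C.NumTrivial z) ∧
      ∀ R sp, C.SpecializesTo l Y α R sp → R.HodgeNum

/-- The standard conjecture of Hodge type for `l`-adic cohomology, `l` in the set `S` of prime
numbers, and the coincidence of numerical and `l`-adic homological equivalence, for all abelian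
varieties `Y` in the class `𝒞` and **all** varieties which specialize to them (for the coincidence
of the two equivalence relations we assume the conjecture `A` of Lefschetz type, `LefschetzA`, a
theorem for abelian varieties). -/
def HomPositiveOn (S : Set Nat.Primes) (𝒞 : RedAV p ν → Prop) : Prop :=
  ∀ (F : Coef) (C : Sys p ν F), IsTheory C → ∀ l ∈ S, ∀ Y : RedAV p ν, 𝒞 Y →
    ∀ α : H1 Y, IsPolarization α → C.HodgeType l Y α (fun _ z => ∃ v, z v ≠ 0) ∧
      ∀ R sp, C.SpecializesTo l Y α R sp → HodgePositive R.n R.gr R.deg R.D ∧
        (LefschetzA R.n R.gr R.D → NumEqHom R.n R.gr R.deg)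

/-- For the Frobenius endomorphism `y` of a factor with complex multiplication by the field `E'`: the
dimension of the factor, half of the degree of `E'`, is an odd number, and some positive power of `y`
is contained in the imaginary quadratic field `k`. If the factor is simple over an algebraic closure
and not supersingular, the second condition says that the centre of its algebra of endomorphisms is
`k`. -/
def OddOver (Q : ImagQuad) {E' : Type} [Field E'] [NumberField E'] (y : E') : Prop :=
  (∃ d : ℕ, Odd d ∧ finrank ℚ E' = 2 * d) ∧
    ∃ (θ : FHom Q.k E') (x : Q.k) (s : ℕ), 0 < s ∧ (show Q.k →+* E' from θ) x = y ^ s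

/-- All positive powers of the Weil numbers `π i` generate the fields `K i`, which contain the
imaginary quadratic field `k`, the degree of `K i` over `k` is a prime number, and `K i` is linearly
disjoint over `k` from the compositum of the Galois closures of the other fields: any two embeddings
of `K i` over `k` are conjugate by an automorphism over `k` which fixes all embeddings of the other
fields. -/
structure PrimeOver (Q : ImagQuad) (W : I → WeilNum p a) (θ : ∀ i, FHom Q.k (W i).E) : Prop where
  powers : ∀ i, Generates (W i).num
  prime : ∀ i, ∃ r : ℕ, r.Prime ∧ finrank ℚ (W i).E = 2 * r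
  disjoint : ∀ i φ ψ, Q.Over (θ i) φ → Q.Over (θ i) ψ →
    ∃ σ, Q.Fixes σ ∧ φ.mv σ = ψ ∧ ∀ j, j ≠ i → ∀ χ : Emb (W j).E, χ.mv σ = χ

/-- Each factor of the abelian variety `Y` over a finite field

* is supersingular, or
* is of odd dimension, and some power of its Frobenius endomorphism is contained in the imaginary
  quadratic field `k` (`OddOver`), or
* is, up to isogeny over an algebraic closure, an odd power of a simple abelian variety with one of
  the Weil numbers `π i` the algebra of endomorphisms of which has an odd index (`IsPowerOf`).

So, up to isogeny over an algebraic closure, the varieties `Y` are the products of supersingular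
abelian varieties, of any number of simple abelian varieties of odd dimension with centre `k` of the
algebra of endomorphisms, and of powers of simple abelian varieties with the Weil numbers `π i` and
algebras of endomorphisms of odd index. -/
def OddOrPrime (Q : ImagQuad) (W : I → WeilNum p a) (Y : RedAV p ν) : Prop :=
  ∀ k : Y.X.I, GS.IsSupersingular p Y.a (Y.π k) ∨ OddOver Q (Y.π k) ∨
    ∃ i, IsPowerOf True (W i).num (Y.π k)

end Pool.Agent.H395.Odd
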