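import Mathlib
import Pool.Agent.H395.Odd.Sign

/-!
# Positivity of primitive classes, for relations with decomposable odd multiples

The frame of the proof of `positive_odd` is that of `positive_quad` in
`Pool/Graph/R_pool_sql_team_seeded_63374d34/N202/QR/Main.lean` and of `positive_nonsplit` in
`Pool/Agent/H395/Exo/Nonsplit2.lean`.
-/

set_option autoImplicit false
set_option linter.unusedSectionVars false
set_option linter.unusedVariables false

namespace Pool.Agent.H395.Odd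

open NumberField Pool.Agent.H204R3.CM Pool.Agent.W547.KB Pool.Agent.W547.LD Pool.Agent.W547.HR
  Pool.Agent.W495.TA Module Pool.Agent.TH117.PO Pool.Agent.W976.TA Pool.Agent.W417.TA
  Pool.Agent.TH117.BL Pool.Agent.W495.TC Pool.Agent.W495.TB Pool.Agent.TH117.F5
  Pool.Agent.N202.QR Pool.Agent.H395.Exo
open scoped TensorProduct

noncomputable section

variable {p : ℕ} [Fact p.Prime] {ν : PadicAlgCl p ≃+* ℂ}

/-- **Positivity of the primitive classes which are not numerically trivial, and of all primitive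
classes if the imaginary quadratic field does not split.** -/
theorem positive_odd {Ω : Nat.Primes → Type} [∀ l, Field (Ω l)] [∀ l, CharZero (Ω l)]
    [∀ l : Nat.Primes, Algebra ℚ_[(l : ℕ)] (Ω l)] [∀ l, IsAlgClosed (Ω l)]
    {C : (Y : RedAV p ν) → (κ : Type) → FCl Ω Y κ → Prop} (hC : IsCompatible Ω C)
    (l0 : Nat.Primes) (hR : IsRosatiPositive (Ω l0) (atPrime C l0))
    (hT : AreTate (Ω l0) (atPrime C l0)) {K : Type} [Field K] [NumberField K]
    [IsCMField K] (hK : finrank ℚ K = 2) (κ0 : K →+* ℂ)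
    {Z : RedAV p ν} (hrel : HasOddQuadRel κ0 Z)
    {Y : RedAV p ν} (hYZ : IsPowersTimesSupersingular Z Y)
    {α : Y.X.H1} (hα : IsPolar Y.X α) {r m : ℕ} (hrm : 2 * (2 * r + m) = finrank ℚ Y.X.H1)
    {z : (TM (Ω l0) Y) [⋀^Fin r × Fin 2]→ₗ[Ω l0] Ω l0} (hz : atPrime C l0 Y _ z)
    (hcase : ¬ IsNumTrivial (Ω l0) (atPrime C l0) z ∨
      (¬ Nonempty (K →+* ℚ_[(l0 : ℕ)]) ∧ z ≠ 0)) (hprim : IsPrim α m z) :
    IsPosClass α m z := by
  classical
  have hC0 := hC.cycle l0
  have hne : Nonempty (((Y.X.prod Z.X).prod (single (kp p))).prod (single (anyPair K))).I :=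
    ⟨Sum.inr ()⟩
  obtain ⟨L, _, _, _, _, j, hj⟩ :=
    exists_cm (((Y.X.prod Z.X).prod (single (kp p))).prod (single (anyPair K)))
  have hY : Big Y.X j := fun i ψ => hj (Sum.inl (Sum.inl (Sum.inl i))) ψ
  have hZ : Big Z.X j := fun i ψ => hj (Sum.inl (Sum.inl (Sum.inr i))) ψ
  have hkp : BigA (kp p) j := fun ψ => hj (Sum.inl (Sum.inr ())) ψ
  obtain ⟨κL, hκ⟩ : ∃ κL : K →+* L, j.comp κL = κ0 := hj (Sum.inr ()) κ0
  let jO : ∀ l, L →+* Ω l := fun l => ((IsAlgClosed.lift : L →ₐ[ℚ] Ω l) : L →+* Ω l)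
  obtain ⟨e, h1, h0⟩ := Pool.Agent.W67.TA.basis p ν (Ω l0) L j (jO l0) Y hY
  -- the words occurring in the class
  have hbal : ∀ s : Fin r × Fin 2 → Wt Y.X L, (z fun k => e (s k)) ≠ 0 →
      ∀ g, ∑ k, tf p ν j (St j (s k)) g = 0 := by
    intro s hs g
    let ε : Fin r × Fin 2 ≃ Fin (2 * r) := finProdFinEquiv.trans (finCongr (mul_comm r 2))
    obtain ⟨t, ht, h2⟩ := hT (z.domDomCongr ε) (hC0.reindex ε z hz)
    have h3 := balanced (jO l0) Pool.Agent.W366.TA.val hY e h1 h0 t r ht (z.domDomCongr ε) h2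
      (fun k => s (ε.symm k)) (by
        change (z fun k => e (s (ε.symm (ε k)))) ≠ 0
        simp only [ε.symm_apply_apply]
        exact hs) g
    rw [← h3]
    exact (Equiv.sum_comp ε.symm fun k => tf p ν j (St j (s k)) g).symm
  have hterm : ∀ s : Fin r × Fin 2 → Wt Y.X L,
      (z fun k => e (s k)) * (z fun k => e (bar (s k))) ≠ 0 →
      ∃ μ : L, (z fun k => e (s k)) * (z fun k => JJ (jO l0) e α (e (s k))) = jO l0 μ ∧
        PosC (j μ) := by
    intro s hss
    have hs := left_ne_zero_of_mul hss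
    have hsi : Function.Injective s := by
      intro k k' hk
      by_contra hne
      refine hs (z.map_eq_zero_of_eq _ ?_ hne)
      rw [hk]
    obtain ⟨μ, h4, h5⟩ := word_sign_odd hC l0 hR hK hκ hZ hkp hrel hY hYZ jO hsi (hbal s hs) (by
      rw [Fintype.card_prod, Fintype.card_fin, Fintype.card_fin]
      exact even_two.mul_left r) (Ln_coef hC0 j hY e h1 h0 hz hsi) hss
    refine ⟨μ * (∏ k, ev α (s k))⁻¹, ?_, ?_⟩
    · rw [x_JJ e h1 h0, map_mul, ← h4, map_inv₀, map_prod]
      ring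
    · have h6 : PosC (∏ k, (j (ev α (bar (s k))) * Pool.Agent.TH117.PO.sgn j (s k))) :=
        PosC.prod _ _ fun k _ => polar_sign j hα (s k)
      rw [Finset.prod_mul_distrib] at h6
      have h7 : ∏ k, j (ev α (bar (s k))) = ∏ k, j (ev α (s k)) := by
        rw [Fintype.prod_prod_type, Fintype.prod_prod_type]
        refine Finset.prod_congr rfl fun i _ => ?_
        rw [Fin.prod_univ_two, Fin.prod_univ_two, ev_bar_polar j hα, ev_bar_polar j hα, map_neg,
          map_neg]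
        ring
      rw [h7] at h6
      have h8 := h5.mul h6.inv
      have h9 : j (μ * (∏ k, ev α (s k))⁻¹) = (j μ * ∏ k, Pool.Agent.TH117.PO.sgn j (s k)) *
          ((∏ k, j (ev α (s k))) * ∏ k, Pool.Agent.TH117.PO.sgn j (s k))⁻¹ := by
        have e1 : ∏ k, Pool.Agent.TH117.PO.sgn j (s k) ≠ 0 :=
          Finset.prod_ne_zero_iff.2 fun k _ => sgn_ne j (s k)
        rw [map_mul, map_inv₀, map_prod, mul_inv]
        field_simp
      rw [h9]
      exact h8
  have key : ∀ s : Fin r × Fin 2 → Wt Y.X L, ∃ μ : L,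
      (z fun k => e (s k)) * (z fun k => JJ (jO l0) e α (e (s k))) = jO l0 μ ∧
        (((z fun k => e (s k)) * (z fun k => e (bar (s k))) ≠ 0 → PosC (j μ)) ∧
          ∃ t : ℝ, 0 ≤ t ∧ j μ = t) := by
    intro s
    by_cases hs : (z fun k => e (s k)) * (z fun k => e (bar (s k))) = 0
    · refine ⟨0, ?_, fun h => absurd hs h, 0, le_rfl, by simp⟩
      rw [x_JJ e h1 h0, map_zero, mul_left_comm, hs, mul_zero]
    · obtain ⟨μ, h2, h3⟩ := hterm s hs
      obtain ⟨t, ht, ht2⟩ := h3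
      exact ⟨μ, h2, fun _ => ⟨t, ht, ht2⟩, t, ht.le, ht2⟩
  choose μ h2 h3 t ht h4 using key
  obtain ⟨s0, hs0⟩ : ∃ s : Fin r × Fin 2 → Wt Y.X L,
      (z fun k => e (s k)) * (z fun k => e (bar (s k))) ≠ 0 := by
    by_contra hcon
    push Not at hcon
    rcases hcase with hnt | ⟨hns, hz0⟩
    · exact hnt (numTriv_of hC0 hY e h1 h0 hz fun s _ => hcon s)
    apply hz0
    refine Basis.ext_alternating e fun s hsi => ?_
    change (z fun k => e (s k)) = 0
    by_contra hs
    have h5 := word_both_odd hC l0 hK hκ hZ hkp hrel hY hYZ jO hsi (hbal s hs) (by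
      rw [Fintype.card_prod, Fintype.card_fin, Fintype.card_fin]
      exact even_two.mul_left r) (Ln_coef hC0 j hY e h1 h0 hz hsi) hns hs
    exact mul_ne_zero hs h5 (hcon s)
  refine positive_of hC0 hY e h1 h0 hα hrm hz hprim (γ := ∑ s, μ s) ?_ ⟨∑ s, t s, ?_, ?_⟩
  · rw [map_sum]
    exact Finset.sum_congr rfl fun s _ => h2 s
  · refine Finset.sum_pos' (fun s _ => ht s) ⟨s0, Finset.mem_univ s0, ?_⟩
    obtain ⟨t', ht', h5⟩ := h3 s0 hs0
    rw [h4] at h5
    have h6 : t s0 = t' := by exact_mod_cast h5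
    rw [h6]
    exact ht'
  · rw [map_sum]
    push_cast
    exact Finset.sum_congr rfl fun s _ => h4 s

end

end Pool.Agent.H395.Odd
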