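import Mathlib
import Pool.Agent.H395.Cyc.Main
import Pool.Agent.H395.Odd.Stm
import Pool.Agent.H395.Odd.Bridge
import Pool.Agent.H395.Odd.Pos

/-!
# Abelian varieties over finite fields whose exotic Tate classes come from one imaginary quadratic
field, with endomorphism algebras of odd index: the theorems
-/

set_option autoImplicit false
set_option linter.unusedSectionVars false
set_option linter.unusedVariables false

namespace Pool.Agent.H395.Odd

open NumberField Module Pool.Agent.W495.TA Pool.Agent.TH117.PO Pool.Agent.Q29.HT Pool.Agent.TH170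
  Pool.Agent.N202.QR Pool.Agent.Y137.HD Pool.Agent.W547.HR Pool.Agent.TH127.SC Pool.Agent.TH117.BL
  Pool.Agent.Y156.P Pool.Agent.Q29.NH Pool.Agent.H395.Cyc Pool.Agent.TH170.MF
  Pool.Agent.TH170.FW Pool.Agent.Y137.MV

noncomputable section

variable {p : ℕ} [hp : Fact p.Prime] {ν : PadicAlgCl p ≃+* ℂ} {a : ℕ}

section general

variable {I : Type} [Fintype I] {K : I → Type} [∀ i, Field (K i)] [∀ i, NumberField (K i)]
  [∀ i, IsCMField (K i)] {k : Type} [Field k] [NumberField k] [IsCMField k] {κ : k →+* ℂ}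
  {J : Set I} {ϑ : ∀ i, i ∈ J → (k →+* K i)}

theorem ofNumbers_of_odd {π : ∀ i, K i} {Y : RedAV p ν} (hY : OfNumbersOdd J π Y) :
    Pool.Agent.Y156.P.OfNumbers π Y := by
  intro k
  rcases hY k with h | ⟨i, θ, m, s, -, h2⟩
  · exact Or.inl h
  · exact Or.inr ⟨i, θ, m, s, h2⟩

theorem pos_of_shape (ha : 0 < a) (hk : finrank ℚ k = 2) {π : ∀ i, K i}
    (hw : ∀ i, π i * IsCMField.complexConj (K i) (π i) = (p : K i) ^ a)
    (hS : Exo.QuadShape (p ^ a) π κ J ϑ) {Ω : Nat.Primes → Type} [∀ l, Field (Ω l)]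
    [∀ l, CharZero (Ω l)] [∀ l : Nat.Primes, Algebra ℚ_[(l : ℕ)] (Ω l)] [∀ l, IsAlgClosed (Ω l)]
    {C : (Y : RedAV p ν) → (κ : Type) → FCl Ω Y κ → Prop} (hC : IsCompatible Ω C)
    (l : Nat.Primes) (hR : IsRosatiPositive (Ω l) (atPrime C l))
    (hT : AreTate (Ω l) (atPrime C l)) {Y : RedAV p ν} (hY : OfNumbersOdd J π Y)
    {α : Y.X.H1} (hα : IsPolar Y.X α) {r m : ℕ} (hrm : 2 * (2 * r + m) = finrank ℚ Y.X.H1)
    {z : (TM (Ω l) Y) [⋀^Fin r × Fin 2]→ₗ[Ω l] Ω l} (hz : atPrime C l Y _ z)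
    (hcase : ¬ IsNumTrivial (Ω l) (atPrime C l) z ∨
      ((J = ∅ ∨ ¬ Nonempty (k →+* ℚ_[(l : ℕ)])) ∧ z ≠ 0)) (hprim : IsPrim α m z) :
    IsPosClass α m z := by
  rcases hcase with hnt | ⟨hJ | hns, hz0⟩
  · exact positive_odd hC l hR hT hk κ (oddRel_of_shape (ν := ν) ha hk hw hS hY)
      (powers_self Y) hα hrm hz (Or.inl hnt) hprim
  · subst hJ
    have hang : MaximalAngleRank (p ^ a) π := fun r n hrel i φ =>
      (hS r n hrel).1 i (Set.notMem_empty i) φ
    exact Pool.Agent.TH117.PO.positive_full (hC.cycle l) hR hT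
      (Or.inr ⟨Y, elementary_of_angle ha hw hang (ofNumbers_of_odd hY), powers_self Y⟩) hα hrm
      hz hz0 hprim
  · exact positive_odd hC l hR hT hk κ (oddRel_of_shape (ν := ν) ha hk hw hS hY)
      (powers_self Y) hα hrm hz (Or.inr ⟨hns, hz0⟩) hprim

end general

section stm

variable {I : Type}

theorem ofNumbersOdd_iff {J : Set I} {W : I → WeilNum p a} {Y : RedAV p ν}
    (hY : OfNumbers J W Y) : OfNumbersOdd J (fun i => (W i).num) Y := by
  intro k
  rcases hY k with h | ⟨i, θ, m, s, h⟩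
  · exact Or.inl h
  · exact Or.inr ⟨i, θ, m, s, h⟩

theorem ofNumbers_mono {J J' : Set I} (hJ : J ⊆ J') {W : I → WeilNum p a} {Y : RedAV p ν}
    (hY : OfNumbers J' W Y) : OfNumbers J W Y := by
  intro k
  rcases hY k with h | ⟨i, θ, m, s, h1, h2⟩
  · exact Or.inl h
  · exact Or.inr ⟨i, θ, m, s, fun hi => h1 (hJ hi), h2⟩

theorem num_of [Fintype I] (ha : 0 < a) {Q : ImagQuad} {J : Set I} {W : I → WeilNum p a}
    {θ : Embedded Q J W} (h : QuadShape Q J W θ) : NumPositive ν J W := by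
  intro F C hC l Y hY α hα
  have hpos : ∀ r m : ℕ, 2 * (2 * r + m) = finrank ℚ Y.X.H1 →
      ∀ z : (TM (F.Ω l) Y) [⋀^Fin r × Fin 2]→ₗ[F.Ω l] F.Ω l,
        atPrime (toC C) l Y (Fin r × Fin 2) z → ¬ IsNumTrivial (F.Ω l) (atPrime (toC C) l) z →
          IsPrim (α : Y.X.H1) m z → IsPosClass (α : Y.X.H1) m z := fun r m hrm z hz hnt hprim =>
    pos_of_shape ha Q.deg (fun i => (W i).weil) (shape_iff.1 h) (isCompatible hC) l
      (isRosati hC l) (areTate hC l) (ofNumbersOdd_iff hY) (fun i φ hφ => hα i ⟨φ, hφ⟩) hrm hz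
      (Or.inl hnt) hprim
  refine ⟨fun r m z hrm hz hnt hprim => ?_, fun R sp hS => ?_⟩
  · obtain ⟨f, hf, rfl⟩ := exists_form hC hz
    exact hpos r m hrm f hf (fun h3 => hnt (numTrivial_of hC h3)) hprim
  · obtain ⟨sp', hsp'⟩ := exists_specializes hC hS
    exact fun j m x hjm hx hp hy => Exo.hodgeNumPositive_of hsp' R.isRing
      (fun r m hrm z hz hnt hprim => hpos r m hrm z hz hnt hprim) j m hjm x hx hp hy

theorem hom_of [Fintype I] (ha : 0 < a) {Q : ImagQuad} {J : Set I} {W : I → WeilNum p a}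
    {θ : Embedded Q J W} (h : QuadShape Q J W θ) :
    HomPositive ν {l | J = ∅ ∨ l ∈ Q.nonsplit} J W := by
  intro F C hC l hl Y hY α hα
  have hpos : ∀ r m : ℕ, 2 * (2 * r + m) = finrank ℚ Y.X.H1 →
      ∀ z : (TM (F.Ω l) Y) [⋀^Fin r × Fin 2]→ₗ[F.Ω l] F.Ω l,
        atPrime (toC C) l Y (Fin r × Fin 2) z → z ≠ 0 → IsPrim (α : Y.X.H1) m z →
          IsPosClass (α : Y.X.H1) m z := fun r m hrm z hz hz0 hprim =>
    pos_of_shape ha Q.deg (fun i => (W i).weil) (shape_iff.1 h) (isCompatible hC) l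
      (isRosati hC l) (areTate hC l) (ofNumbersOdd_iff hY) (fun i φ hφ => hα i ⟨φ, hφ⟩) hrm hz
      (Or.inr ⟨hl, hz0⟩) hprim
  refine ⟨fun r m z hrm hz hz0 hprim => ?_, fun R sp hS => ?_⟩
  · obtain ⟨f, hf, rfl⟩ := exists_form hC hz
    obtain ⟨v, hv⟩ := hz0
    exact hpos r m hrm f hf (fun h3 => hv (by rw [h3]; rfl)) hprim
  · obtain ⟨sp', hsp'⟩ := exists_specializes hC hS
    have h1 : HodgePositive R.n R.gr R.deg R.D :=
      hodgePositive_of hsp' R.isRing hpos
    refine ⟨h1, fun hA => numEqHom R.isRing hA fun j m hjm z hz hp h0 => ?_⟩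
    by_contra hz0
    have h2 := h1 j m hjm z hz hp hz0
    rw [h0, map_zero, mul_zero] at h2
    exact lt_irrefl _ h2

theorem numPositive_mono {J J' : Set I} {W : I → WeilNum p a} (hJ : J ⊆ J')
    (h : NumPositive ν J W) : NumPositive ν J' W :=
  fun F C hC l Y hY => h F C hC l Y (ofNumbers_mono hJ hY)

theorem homPositive_mono {S S' : Set Nat.Primes} {J J' : Set I} {W : I → WeilNum p a}
    (hJ : J ⊆ J') (hS : S' ⊆ S) (h : HomPositive ν S J W) : HomPositive ν S' J' W :=
  fun F C hC l hl Y hY => h F C hC l (hS hl) Y (ofNumbers_mono hJ hY)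

/-- If all the fields are isomorphic to the imaginary quadratic field, the condition on the relations
is fulfilled. -/
theorem shape_of_quadratic [Fintype I] {Q : ImagQuad} {J : Set I} {W : I → WeilNum p a}
    {θ : Embedded Q J W} (h : ∀ i, i ∈ J ∧ finrank ℚ (W i).E = 2) : QuadShape Q J W θ := by
  intro n hn
  refine ⟨fun i hi => absurd (h i).1 hi, fun i hi φ ψ hφ hψ => ?_⟩
  let f : Q.k →ₐ[ℚ] (W i).E := RingHom.toRatAlgHom (show Q.k →+* (W i).E from θ i hi)
  have hsur : Function.Surjective f := by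
    have h1 : Function.Injective f.toLinearMap := f.toRingHom.injective
    exact (LinearMap.injective_iff_surjective_of_finrank_eq_finrank (by rw [Q.deg, (h i).2])).1 h1
  have h2 : φ = ψ := by
    have h3 : (show (W i).E →+* ℂ from φ) = (show (W i).E →+* ℂ from ψ) := by
      ext x
      obtain ⟨y, rfl⟩ := hsur x
      exact (RingHom.congr_fun hφ y).trans (RingHom.congr_fun hψ y).symm
    exact h3
  rw [h2]

/-- Some imaginary quadratic field. -/
theorem exists_quad (p : ℕ) [Fact p.Prime] : Nonempty ImagQuad := by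
  obtain ⟨κ⟩ : Nonempty ((kp p).E →+* ℂ) := inferInstance
  exact ⟨⟨(kp p).E, finrank_kp p, κ⟩⟩

/-- A single triply transitive field without imaginary quadratic subfields. -/
theorem single_none (ha : 0 < a) (w : WeilNum p a) (h3 : TriplyTransitive w.E)
    (hE : 6 ≤ finrank ℚ w.E) (hpow : Generates w.num)
    (hno : ∀ Q : ImagQuad, IsEmpty (FHom Q.k w.E)) :
    NumPositive ν ∅ (fun _ : Unit => w) ∧ HomPositive ν Set.univ ∅ (fun _ : Unit => w) := by
  classical
  have hno' : ∀ F : IntermediateField ℚ w.E, finrank ℚ F = 2 → IsTotallyReal F := by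
    intro F hF2
    by_contra hF
    have hTC : IsTotallyComplex F := ⟨fun v => by
      rw [InfinitePlace.isComplex_iff, ComplexEmbedding.isReal_iff]
      exact conj_ne_of_nonReal hF _⟩
    have hq : Algebra.IsQuadraticExtension ℚ F := ⟨hF2⟩
    have hcm : IsCMField F := IsCMField.ofCMExtension ℚ F
    obtain ⟨κ⟩ : Nonempty (F →+* ℂ) := inferInstance
    exact (hno ⟨F, hF2, κ⟩).false (algebraMap F w.E)
  obtain ⟨Q⟩ := exists_quad p
  have hQ : Exo.QuadTypes (K := fun _ : Unit => w.E) p (fun _ => a) (fun _ => w.num) Q.κ ∅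
      (fun i hi => absurd hi (Set.notMem_empty i)) := by
    refine ⟨fun _ => hpow, fun i _ => ?_, fun i hi => absurd hi (Set.notMem_empty i),
      fun i hi => absurd hi (Set.notMem_empty i)⟩
    obtain ⟨φ⟩ : Nonempty (w.E →+* ℂ) := inferInstance
    refine ⟨φ, Or.inr (Or.inr (Or.inr (Or.inr (Or.inr ?_))))⟩
    exact Exo.irreducibleType_of_flips (fun x y hxy => Exo.exists_flip h3 hE hno' hxy) _
  have hS : QuadShape Q ∅ (fun _ : Unit => w) (fun i hi => absurd hi (Set.notMem_empty i)) :=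
    shape_iff.2 (Exo.shape_of_types Q.deg (fun _ => w.integral) (fun _ => w.weil) hQ)
  exact ⟨num_of ha hS, homPositive_mono subset_rfl (fun _ _ => Or.inl rfl) (hom_of ha hS)⟩

/-- A single triply transitive field with an imaginary quadratic subfield. -/
theorem single_over (ha : 0 < a) (w : WeilNum p a) (h3 : TriplyTransitive w.E)
    (hE : 6 ≤ finrank ℚ w.E) (hpow : Generates w.num) (Q : ImagQuad) (θ : FHom Q.k w.E) :
    NumPositive ν Set.univ (fun _ : Unit => w) ∧
      HomPositive ν Q.nonsplit Set.univ (fun _ : Unit => w) := by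
  have hQ : Exo.QuadTypes (K := fun _ : Unit => w.E) p (fun _ => a) (fun _ => w.num) Q.κ
      (Set.univ : Set Unit) (fun i hi => θ) := by
    refine ⟨fun _ => hpow, fun i hi => absurd (Set.mem_univ i) hi, fun i hi => ?_,
      fun i hi => ?_⟩
    · exact Or.inl (Exo.sumZero_of_triple Q.deg Q.κ _ h3 hE)
    · intro φ ψ hφ hψ
      obtain ⟨σ, h1, h2⟩ := Exo.exists_aut_over Q.κ θ φ ψ hφ hψ
      exact ⟨σ, h1, h2, fun j _ hj => absurd (Subsingleton.elim j i) hj⟩
  have hS : QuadShape Q Set.univ (fun _ : Unit => w) (fun i hi => θ) :=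
    shape_iff.2 (Exo.shape_of_types Q.deg (fun _ => w.integral) (fun _ => w.weil) hQ)
  exact ⟨num_of ha hS, homPositive_mono subset_rfl (fun _ hl => Or.inr hl) (hom_of ha hS)⟩

end stm

end

end Pool.Agent.H395.Odd
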