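import Mathlib
import Pool.Agent.H395.Odd.ClassStm
import Pool.Agent.H395.Odd.Main
import Pool.Agent.H395.Exo.Imag

/-!
# The standard conjecture of Hodge type for classes of abelian varieties over finite fields: the
class of the abelian varieties with factors of odd dimension with centre `k` and factors whose fields
are of prime degree over `k`
-/

set_option autoImplicit false
set_option linter.unusedSectionVars false
set_option linter.unusedVariables false

namespace Pool.Agent.H395.Odd

open NumberField Module Pool.Agent.W495.TA Pool.Agent.TH117.PO Pool.Agent.Q29.HT Pool.Agent.TH170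
  Pool.Agent.N202.QR Pool.Agent.Y137.HD Pool.Agent.H395.Cyc

noncomputable section

variable {p : ℕ} [hp : Fact p.Prime] {ν : PadicAlgCl p ≃+* ℂ} {a : ℕ} {I T : Type}

/-- A power of a Weil number. -/
def powNum (w : WeilNum p a) (m : ℕ) : WeilNum p (a * m) where
  E := w.E
  num := w.num ^ m
  integral := w.integral.pow m
  weil := by
    rw [map_pow, ← mul_pow, w.weil, pow_mul]

/-- A Weil number in an imaginary quadratic field. -/
def quadNum (Q : ImagQuad) (y : Q.k) (h1 : IsIntegral ℤ y)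
    (h2 : y * IsCMField.complexConj Q.k y = (p : Q.k) ^ a) : WeilNum p a where
  E := Q.k
  num := y
  integral := h1
  weil := h2

theorem generates_pow {E : Type} [Field E] [NumberField E] {x : E} (h : Generates x) {m : ℕ}
    (hm : 0 < m) : Generates (x ^ m) := by
  intro s hs
  rw [← pow_mul]
  exact h _ (Nat.mul_pos hm hs)

theorem primeOver_pow {Q : ImagQuad} {W : I → WeilNum p a} {θ : ∀ i, FHom Q.k (W i).E}
    (h : PrimeOver Q W θ) {m : ℕ} (hm : 0 < m) : PrimeOver Q (fun i => powNum (W i) m) θ where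
  powers i := generates_pow (h.powers i) hm
  prime := h.prime
  disjoint := h.disjoint

/-- The family of the Weil numbers. -/
def famNum (Q : ImagQuad) (W : I → WeilNum p a) (V : T → WeilNum p a) : I ⊕ T → WeilNum p a
  | Sum.inl i => W i
  | Sum.inr t => V t

/-- The embeddings of the imaginary quadratic field. -/
def famEmb (Q : ImagQuad) (W : I → WeilNum p a) (V : T → WeilNum p a)
    (θ : ∀ i, FHom Q.k (W i).E) (η : ∀ t, FHom Q.k (V t).E) :
    Embedded Q Set.univ (famNum Q W V)
  | Sum.inl i, _ => θ i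
  | Sum.inr t, _ => η t

theorem fixes_emb {Q : ImagQuad} {σ : ℂ ≃+* ℂ} (hσ : Q.Fixes σ) (χ : Emb Q.k) : χ.mv σ = χ := by
  rcases Exo.emb_quad Q.deg Q.κ (show Q.k →+* ℂ from χ) with h | h
  · have h1 : χ = (show Emb Q.k from Q.κ) := h
    subst h1
    exact RingHom.ext fun x => hσ x
  · have h1 : χ = (show Emb Q.k from ComplexEmbedding.conjugate Q.κ) := h
    subst h1
    exact Exo.fix_conj Q.deg Q.κ hσ

/-- The family of the Weil numbers has the required types. -/
theorem types_fam [Fintype I] [Fintype T] {Q : ImagQuad} {W : I → WeilNum p a}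
    {θ : ∀ i, FHom Q.k (W i).E} (h : PrimeOver Q W θ) (y : T → Q.k)
    (h1 : ∀ t, IsIntegral ℤ (y t))
    (h2 : ∀ t, y t * IsCMField.complexConj Q.k (y t) = (p : Q.k) ^ a)
    (h3 : ∀ t, Generates (y t)) :
    QuadTypes Q Set.univ (famNum Q W (fun t => quadNum Q (y t) (h1 t) (h2 t)))
      (famEmb Q W (fun t => quadNum Q (y t) (h1 t) (h2 t)) θ (fun _ => RingHom.id Q.k)) where
  powers i := by
    rcases i with i | t
    · exact h.powers i
    · exact h3 t
  local_type i hi := absurd (Set.mem_univ i) hi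
  over_k i hi := by
    rcases i with i | t
    · exact Or.inl (criteria Q (W i).E (θ i) (Or.inl (h.prime i)))
    · refine Or.inl (criteria Q Q.k (RingHom.id Q.k) (Or.inr ?_))
      intro φ₁ φ₂ ψ₁ ψ₂ hφ₁ hφ₂ hψ₁ hψ₂ hne
      exact absurd (hφ₁.trans hφ₂.symm) hne
  alone i hi φ ψ hφ hψ := by
    rcases i with i | t
    · obtain ⟨σ, hσ, h4, h5⟩ := h.disjoint i φ ψ hφ hψ
      refine ⟨σ, hσ, h4, fun j _ hj χ => ?_⟩
      rcases j with j | t
      · exact h5 j (fun h6 => hj (congrArg Sum.inl h6)) χ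
      · exact fixes_emb hσ χ
    · refine ⟨RingEquiv.refl ℂ, fun _ => rfl, ?_, fun j _ hj χ => ?_⟩
      · have h6 : φ = ψ := hφ.trans hψ.symm
        subst h6
        exact RingHom.ext fun _ => rfl
      · exact RingHom.ext fun _ => rfl

theorem generates_of_ne {Q : ImagQuad} {y : Q.k}
    (h : ∀ s : ℕ, 0 < s → ∀ q : ℚ, y ^ s ≠ (q : Q.k)) : Generates y := by
  intro s hs
  have h1 : (finrank ℚ Q.k).Prime := by
    rw [Q.deg]
    exact Nat.prime_two
  have h2 := IntermediateField.isSimpleOrder_of_finrank_prime ℚ Q.k h1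
  rcases h2.eq_bot_or_eq_top (IntermediateField.adjoin ℚ {y ^ s}) with h3 | h3
  · exfalso
    obtain ⟨q, hq⟩ := IntermediateField.mem_bot.1 (IntermediateField.adjoin_simple_eq_bot_iff.1 h3)
    exact h s hs q (by rw [← hq, eq_ratCast])
  · exact h3

/-- Each abelian variety in the class is given by a finite family of Weil numbers in fields which
contain `k`, with the required properties. -/
theorem exists_family (ha : 0 < a) [Fintype I] {Q : ImagQuad} {W : I → WeilNum p a}
    {θ : ∀ i, FHom Q.k (W i).E} (h : PrimeOver Q W θ) {Y : RedAV p ν} (hY : OddOrPrime Q W Y) :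
    ∃ (b : ℕ) (T : Type) (_ : Fintype T) (V : I ⊕ T → WeilNum p b) (η : Embedded Q Set.univ V),
      0 < b ∧ QuadShape Q Set.univ V η ∧ OfNumbers Set.univ V Y := by
  classical
  let T := {k : Y.X.I // OddOver Q (Y.π k) ∧ ¬ GS.IsSupersingular p Y.a (Y.π k)}
  have hT : ∀ t : T, ∃ (ϑ : Q.k →+* (Y.X.factor t.1).E) (x : Q.k) (s : ℕ),
      0 < s ∧ ϑ x = Y.π t.1 ^ s := fun t => t.2.1.2
  choose ϑ x s hs hx using hT
  set S := ∏ t, s t with hSdef
  have hS : 0 < S := Finset.prod_pos fun t _ => hs t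
  have hdvd : ∀ t, s t ∣ S := fun t => Finset.dvd_prod_of_mem _ (Finset.mem_univ t)
  let y : T → Q.k := fun t => x t ^ (a * (S / s t))
  have hy : ∀ t, ϑ t (y t) = Y.π t.1 ^ (a * S) := by
    intro t
    obtain ⟨c, hc⟩ := hdvd t
    show ϑ t (x t ^ (a * (S / s t))) = _
    rw [map_pow, hx, ← pow_mul, hc, Nat.mul_div_cancel_left _ (hs t)]
    congr 1
    ring
  have h1 : ∀ t, IsIntegral ℤ (y t) := by
    intro t
    have h4 : IsIntegral ℤ ((ϑ t).toIntAlgHom (y t)) := by
      show IsIntegral ℤ (ϑ t (y t))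
      rw [hy]
      exact (Y.frob t.1).integral.pow _
    exact (isIntegral_algHom_iff (ϑ t).toIntAlgHom (ϑ t).injective).1 h4
  have h2 : ∀ t, y t * IsCMField.complexConj Q.k (y t) = (p : Q.k) ^ (a * (Y.a * S)) := by
    intro t
    obtain ⟨φ⟩ : Nonempty ((Y.X.factor t.1).E →+* ℂ) := inferInstance
    apply (φ.comp (ϑ t)).injective
    rw [map_mul, IsCMField.complexEmbedding_complexConj, Complex.mul_conj', RingHom.comp_apply, hy,
      map_pow, norm_pow, map_pow, map_natCast]
    have h5 := (Y.frob t.1).weil φ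
    have h6 : ((‖φ (Y.π t.1)‖ : ℂ)) ^ 2 = (p : ℂ) ^ Y.a := by exact_mod_cast h5
    push_cast
    rw [← pow_mul, mul_comm (a * S) 2, pow_mul, h6, ← pow_mul]
    congr 1
    ring
  have h3 : ∀ t, Generates (y t) := by
    intro t
    refine generates_of_ne fun r hr q hq => t.2.2 ?_
    have h4 : y t ^ (2 * r) = (p : Q.k) ^ (a * (Y.a * S) * r) := by
      have h5 := congrArg (· ^ r) (h2 t)
      have h6 : IsCMField.complexConj Q.k (y t) ^ r = y t ^ r := by
        rw [← map_pow, hq, map_ratCast]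
      simp only [mul_pow, h6] at h5
      rw [two_mul, pow_add, h5, ← pow_mul]
    refine ⟨a * S * r, by positivity, ?_⟩
    have h5 := congrArg (ϑ t) h4
    rw [map_pow, hy, map_pow, map_natCast, ← pow_mul] at h5
    rw [← pow_mul, show 2 * (a * S * r) = a * S * (2 * r) by ring, h5]
    congr 1
    ring
  have hm : 0 < Y.a * S := Nat.mul_pos Y.pos hS
  refine ⟨a * (Y.a * S), T, inferInstance,
    famNum Q (fun i => powNum (W i) (Y.a * S)) (fun t => quadNum Q (y t) (h1 t) (h2 t)),
    famEmb Q (fun i => powNum (W i) (Y.a * S)) (fun t => quadNum Q (y t) (h1 t) (h2 t)) θ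
      (fun _ => RingHom.id Q.k), Nat.mul_pos ha hm,
    shape_of (types_fam (primeOver_pow h hm) y h1 h2 h3), fun k => ?_⟩
  by_cases hss : GS.IsSupersingular p Y.a (Y.π k)
  · exact Or.inl hss
  rcases hY k with h4 | h4 | ⟨i, ϑ', m, r, h5, h6, h7, h8⟩
  · exact Or.inl h4
  · refine Or.inr ⟨Sum.inr ⟨k, h4, hss⟩, ϑ ⟨k, h4, hss⟩, 1, a * S, fun _ => ?_, one_pos,
      Nat.mul_pos ha hS, ?_⟩
    · obtain ⟨d, hd, h5⟩ := h4.1
      refine ⟨d, hd, h5.trans ?_⟩
      show 2 * d = d * finrank ℚ Q.k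
      rw [Q.deg, mul_comm]
    · have h9 : ϑ ⟨k, h4, hss⟩ (y ⟨k, h4, hss⟩ ^ 1) = Y.π k ^ (a * S) := by
        rw [pow_one]
        exact hy _
      exact h9
  · refine Or.inr ⟨Sum.inl i, ϑ', m, r * (Y.a * S), fun _ => h5 trivial, h6,
      Nat.mul_pos h7 hm, ?_⟩
    show ϑ' (((W i).num ^ (Y.a * S)) ^ m) = _
    rw [← pow_mul, mul_comm, pow_mul, map_pow, h8, ← pow_mul]

/-- The standard conjecture of Hodge type for the class of the abelian varieties with factors of odd
dimension with centre `k` and factors whose fields are of prime degree over `k`. -/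
theorem odd_or_prime (ha : 0 < a) [Fintype I] {Q : ImagQuad} {W : I → WeilNum p a}
    {θ : ∀ i, FHom Q.k (W i).E} (h : PrimeOver Q W θ) :
    NumPositiveOn (OddOrPrime (ν := ν) Q W) ∧ HomPositiveOn Q.nonsplit (OddOrPrime (ν := ν) Q W) := by
  constructor
  · intro F C hC l Y hY
    obtain ⟨b, T, _, V, η, hb, hV, hYV⟩ := exists_family ha h hY
    exact num_of hb hV F C hC l Y hYV
  · intro F C hC l hl Y hY
    obtain ⟨b, T, _, V, η, hb, hV, hYV⟩ := exists_family ha h hY
    exact hom_of hb hV F C hC l (Or.inr hl) Y hYV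

end

end Pool.Agent.H395.Odd
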